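import Pool.Agent.H36.LG.Df
import Pool.Agent.H36.CY.Vl

/-!
ROW Mp (project MP_78d38b_LG, about 80 lines): extension of the completion. Use only the STATEMENTS of the imports (`over_dn, v_one, map_lt` are in Pool/Agent/H36/CY/Vl.lean, `Over.map_algebraMap` in Pool/Agent/H10/Comp.lean).

PROOF of map_le. If `|x| < 1`: `map_lt h` with `y = 1`. If `|x| = 1`: by density (`HeightOneSpectrum.denseRange_algebraMap`, `Te_nhd`) there is `k ∈ K` with `|algebraMap k - x| < 1`; then `v.valuation K k = 1` (`valuedAdicCompletion_eq_valuation'`), so `w.valuation L (algebraMap K L k) = 1` (`v_one`), and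
`|h.map x - algebraMap (algebraMap k)| < 1` (`map_lt`), so `|h.map x| ≤ 1`.

PROOF of Near.map: fields one by one: `map_le`, `map_lt`, `h.map` is an injective ring homomorphism, `dl (h.map a) (h.map b) = h.map (dl a b)`; for `rt`: `m3` commutes with `h.map` (`Te_m3_map` or `fin_cases j; simp [m3]`), for `nr`: `h.map (TT j) = TT j`.
-/

set_option autoImplicit false
set_option linter.unusedSectionVars false
open scoped Classical

open WithZero NumberField IsDedekindDomain H76PP H36CY

namespace H36LG

variable {K L : Type} [Field K] [NumberField K] [Field L] [NumberField L] [Algebra K L]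
  {v : HeightOneSpectrum (𝓞 K)} {w : HeightOneSpectrum (𝓞 L)}

theorem map_le (h : Pool.Agent.H10.Over v w) {x : v.adicCompletion K} (hx : Valued.v x ≤ 1) :
    Valued.v (h.map x) ≤ 1 := by
  rcases lt_or_eq_of_le hx with h1 | h1
  · have h2 := map_lt h (x := x) (y := 1) (by rw [map_one]; exact h1)
    rw [map_one, map_one] at h2
    exact h2.le
  · have hd := HeightOneSpectrum.denseRange_algebraMap (K := K) v
    have h2 : {t : v.adicCompletion K | Valued.v (t - x) < Valued.v (1 : v.adicCompletion K)} ∈
        nhds x := Te_nhd x one_ne_zero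
    obtain ⟨t, ht, ⟨k, rfl⟩⟩ := mem_closure_iff_nhds.1 (hd x) _ h2
    have ht' : Valued.v (algebraMap K (v.adicCompletion K) k - x) <
        Valued.v (1 : v.adicCompletion K) := ht
    have h3 := map_lt h ht'
    rw [map_one] at ht'
    have h4 : Valued.v (algebraMap K (v.adicCompletion K) k) = 1 := by
      have h5 : algebraMap K (v.adicCompletion K) k =
          x + (algebraMap K (v.adicCompletion K) k - x) := by ring
      rw [h5, Valuation.map_add_eq_of_lt_left _ (by rw [h1]; exact ht')]
      exact h1
    have h5 := v.valuedAdicCompletion_eq_valuation' (K := K) k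
    change Valued.v (algebraMap K (v.adicCompletion K) k) = _ at h5
    rw [h5] at h4
    have h6 := v_one h h4
    have h7 := w.valuedAdicCompletion_eq_valuation' (K := L) (algebraMap K L k)
    change Valued.v (algebraMap L (w.adicCompletion L) (algebraMap K L k)) = _ at h7
    rw [map_sub, h.map_algebraMap, map_one, map_one] at h3
    have h8 : h.map x = algebraMap L (w.adicCompletion L) (algebraMap K L k) -
        (algebraMap L (w.adicCompletion L) (algebraMap K L k) - h.map x) := by ring
    rw [h8]
    refine Valuation.map_sub_le _ ?_ h3.le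
    rw [h7, h6]

theorem Mp_dl (h : Pool.Agent.H10.Over v w) (a b : v.adicCompletion K) :
    dl (h.map a) (h.map b) = h.map (dl a b) := by
  unfold dl
  rw [map_add, map_mul, map_mul, map_pow, map_pow, map_ofNat, map_ofNat]

theorem Mp_16 (h : Pool.Agent.H10.Over v w) (ϖ a b : v.adicCompletion K) :
    h.map ϖ ^ 2 * dl (h.map a) (h.map b) ^ 3 = h.map (ϖ ^ 2 * dl a b ^ 3) := by
  rw [Mp_dl, map_mul, map_pow, map_pow]

theorem map_le' (h : Pool.Agent.H10.Over v w) {x y : v.adicCompletion K}
    (hxy : Valued.v x ≤ Valued.v y) : Valued.v (h.map x) ≤ Valued.v (h.map y) := by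
  by_cases hy : y = 0
  · rw [hy, map_zero, le_zero_iff, Valuation.zero_iff] at hxy
    rw [hxy, hy]
  · have h1 : 0 < Valued.v y := (Valuation.pos_iff _).2 hy
    have h2 : 0 < Valued.v (h.map y) := (Valuation.pos_iff _).2 ((map_ne_zero _).2 hy)
    have h3 := map_le h (x := x / y) (by rw [map_div₀]; exact (div_le_one₀ h1).2 hxy)
    rw [map_div₀, map_div₀] at h3
    exact (div_le_one₀ h2).1 h3

theorem Mp_TT (h : Pool.Agent.H10.Over v w) (j : Fin 3) :
    (TT j : w.adicCompletion L) = h.map (TT j) := by
  fin_cases j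
  · exact (map_zero h.map).symm
  · exact (map_one h.map).symm
  · exact (map_zero h.map).symm

theorem Mp_cst (h : Pool.Agent.H10.Over v w) (x : v.adicCompletion K) (j : Fin 3) :
    cst (h.map x) j = h.map (cst x j) := by
  fin_cases j
  · rfl
  · exact (map_zero h.map).symm
  · exact (map_zero h.map).symm

theorem Mp_m3 (h : Pool.Agent.H10.Over v w) (a b : v.adicCompletion K)
    (y z : Fin 3 → v.adicCompletion K) :
    m3 (h.map a) (h.map b) (fun j => h.map (y j)) (fun j => h.map (z j)) =
      fun j => h.map (m3 a b y z j) := by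
  funext j
  exact Te_m3_map h.map a b y z j

theorem Near.map (h : Pool.Agent.H10.Over v w) {ϖ a b A B : v.adicCompletion K}
    {τ : Fin 3 → v.adicCompletion K} (hab : Near ϖ a b A B τ) :
    Near (h.map ϖ) (h.map a) (h.map b) (h.map A) (h.map B) (fun j => h.map (τ j)) := by
  obtain ⟨ia, ib, ne, w0, w1, w4, dA, dB, rt, nr⟩ := hab
  refine ⟨map_le h ia, map_le h ib, ?_, (map_ne_zero _).2 w0, ?_, ?_, ?_, ?_, ?_, ?_⟩
  · rw [Mp_dl]
    exact (map_ne_zero _).2 ne
  · have h4 := map_lt h (x := ϖ) (y := 1) (by rw [map_one]; exact w1)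
    rw [map_one, map_one] at h4
    exact h4
  · have h4 := map_le' h w4
    rw [map_ofNat] at h4
    exact h4
  · rw [Mp_16, ← map_sub]
    exact map_lt h dA
  · rw [Mp_16, ← map_sub]
    exact map_lt h dB
  · intro j
    rw [Mp_m3, Mp_m3, Mp_cst]
    have h4 := congrArg h.map (rt j)
    rw [map_add, map_add, map_mul, map_zero] at h4
    exact h4
  · intro j
    rw [Mp_16, Mp_TT h, ← map_sub]
    exact map_lt h (nr j)

end H36LG
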