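import Pool.Agent.H36.LG.Gn
import Pool.Agent.H36.LG.Mp

/-!
ROW Gl (project MP_78d38b_LG, about 200 lines): a global element `d0` for `(a, b)` corresponding to the element `d` for `(A, B)`. Use only the STATEMENTS of the imports (`exists_above`, `fin_above`, `dn` are in Pool/Agent/H76/PP and Pool/Agent/H38/RT; `over_dn`, `map_lt`, `v_lt_one` in Pool/Agent/H36/CY/Vl.lean).

PROOF. For `u` with `dn K u = v` (finitely many: `fin_above v`) let `hov = over_dn u : Over v u`, `τu j = hov.map (τ j)`; `Near.map` gives `Near` over `u.adicCompletion k` (note `hov.map (algebraMap K _ x) = algebraMap k _ (algebraMap K k x)`), and `ph_near` with the element `fun j => algebraMap k _ (d j)`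
gives `c_u ≠ 0`. Let `π ∈ K` with `v.valuation K π = exp (-1)` (`v.valuation_exists_uniformizer K`); `u.valuation k π < 1` for all these `u`, so for `m` large `|π^m|_u < |c_u|` for all `u` (finite set; `exists_pow_lt₀`). By density (`near_coe`-like; `HeightOneSpectrum.denseRange_algebraMap`, `Te_nhd`) take `σ : Fin 3 → K` with `|σ j - τ j|_v < |π^m|_v`;
by `map_lt`: `|σ j - τu j|_u < |π^m|_u < |c_u|`. Let `d1 = ph (a : k) (b : k) (fun j => algebraMap K k (σ j)) d : Fin 3 → k`. For every `u`: the image of `d1` is `ph .. (image of σ) (image of d) = (ph τu d) (t t)` with `Te_nf t ≠ 0` (`ph` commutes with ring homomorphisms: `fin_cases j; simp [ph, m3, cst]`).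
`N1 = Te_nf a b d1 ∈ k`. There is at least one `u` (`exists_above`), and there the image of `N1` is `Te_nf (ph τu d) Te_nf(t)^2 = image(Te_nf A B d) Te_nf(t)^2 ≠ 0` (`ph_nf`, `Te_nf_mul`, `Te_nf_map`), so `N1 ≠ 0`. Put `d0 j = N1 * d1 j`: `Te_nf a b d0 = N1^3 * N1 = (N1^2)^2 ≠ 0`.
For `u`: `Te_nf A B d = n * n` with `n ∈ k`, so image of `N1` = `(n Te_nf(t))^2` (n = image of n) and the image of `d0` is `(ph τu d) (s s)`, `s j = n * Te_nf(t) * t j`, `Te_nf s = (n Te_nf(t))^3 Te_nf(t) ≠ 0`.
-/

set_option autoImplicit false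
set_option linter.unusedSectionVars false
open scoped Classical

open WithZero NumberField IsDedekindDomain H76PP H36CY

namespace H36LG

private theorem Gl_val {k : Type} [Field k] [NumberField k] (u : HeightOneSpectrum (𝓞 k)) (x : k) :
    Valued.v (algebraMap k (u.adicCompletion k) x) = u.valuation k x :=
  HeightOneSpectrum.valuedAdicCompletion_eq_valuation' u x

private theorem Gl_char {k : Type} [Field k] [NumberField k] (u : HeightOneSpectrum (𝓞 k)) :
    CharZero (u.adicCompletion k) :=
  charZero_of_injective_algebraMap (algebraMap k (u.adicCompletion k)).injective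

private theorem Gl_near {k : Type} [Field k] [NumberField k] (u : HeightOneSpectrum (𝓞 k))
    (x : u.adicCompletion k) {c : u.adicCompletion k} (hc : c ≠ 0) :
    ∃ y : k, Valued.v (algebraMap k (u.adicCompletion k) y - x) < Valued.v c := by
  have hd := HeightOneSpectrum.denseRange_algebraMap (K := k) u
  obtain ⟨y, hy⟩ := hd.mem_nhds (Te_nhd x hc)
  exact ⟨y, hy⟩

private theorem Gl_ph_map {F F' : Type*} [Field F] [Field F'] (i : F →+* F') (a b : F)
    (τ c : Fin 3 → F) :
    (fun j => i (ph a b τ c j)) = ph (i a) (i b) (fun j => i (τ j)) (fun j => i (c j)) := by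
  funext j
  unfold ph
  rw [map_add, map_add, map_mul, map_mul, map_mul, Te_m3_map]
  have h : i (cst (1 : F) j) = cst (1 : F') j := by
    fin_cases j <;> simp [cst]
  rw [h]

private theorem Gl_nf_smul {F : Type*} [Field F] (a b c : F) (z : Fin 3 → F) :
    Te_nf a b (fun j => c * z j) = c ^ 3 * Te_nf a b z := by
  unfold Te_nf
  ring

private theorem Gl_sq {F : Type*} [Field F] (a b c : F) (w t : Fin 3 → F) (j : Fin 3) :
    m3 a b w (m3 a b (fun j => c * t j) (fun j => c * t j)) j = c ^ 2 * m3 a b w (m3 a b t t) j := by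
  fin_cases j <;> simp [m3] <;> ring

private theorem Gl_N {k F : Type*} [Field k] [Field F] (i : k →+* F) {a b A B : k} {d d1 : Fin 3 → k}
    {w t : Fin 3 → F} (hw : Te_nf (i a) (i b) w = i (Te_nf A B d))
    (hte : (fun j => i (d1 j)) = m3 (i a) (i b) w (m3 (i a) (i b) t t)) :
    i (Te_nf a b d1) = i (Te_nf A B d) * Te_nf (i a) (i b) t ^ 2 := by
  rw [← Te_nf_map, hte, Te_nf_mul, Te_nf_mul, hw]
  ring

private theorem Gl_last {k F : Type*} [Field k] [Field F] (i : k →+* F) {a b A B : k} {d d1 : Fin 3 → k}
    {w t : Fin 3 → F} {n : k} (hn0 : n ≠ 0) (hn : Te_nf A B d = n * n) (ht : Te_nf (i a) (i b) t ≠ 0)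
    (hw : Te_nf (i a) (i b) w = i (Te_nf A B d))
    (hte : (fun j => i (d1 j)) = m3 (i a) (i b) w (m3 (i a) (i b) t t)) :
    ∃ s : Fin 3 → F, Te_nf (i a) (i b) s ≠ 0 ∧
      (fun j => i (Te_nf a b d1 * d1 j)) = m3 (i a) (i b) w (m3 (i a) (i b) s s) := by
  have h1 := Gl_N i hw hte
  obtain ⟨e, he⟩ : ∃ e : F, e = i n * Te_nf (i a) (i b) t := ⟨_, rfl⟩
  have he0 : e ≠ 0 := by
    rw [he]
    exact mul_ne_zero ((map_ne_zero _).2 hn0) ht
  have he2 : i (Te_nf a b d1) = e ^ 2 := by
    rw [h1, hn, he, map_mul]
    ring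
  refine ⟨fun j => e * t j, ?_, ?_⟩
  · rw [Gl_nf_smul]
    exact mul_ne_zero (pow_ne_zero _ he0) ht
  · funext j
    rw [Gl_sq, map_mul, he2, ← congrFun hte j]

private theorem Gl_nf {F : Type*} [Field F] [Valued F (WithZero (Multiplicative ℤ))] {ϖ a b A B : F}
    {τ : Fin 3 → F} (h : Near ϖ a b A B τ) (d : Fin 3 → F) :
    Te_nf a b (ph a b τ d) = Te_nf A B d := ph_nf h.rt (det_ne h) d

section

variable {K k : Type} [Field K] [NumberField K] [Field k] [NumberField k] [Algebra K k]
    {v : HeightOneSpectrum (𝓞 K)} {a b A B : K} {ϖ : v.adicCompletion K} {τ : Fin 3 → v.adicCompletion K}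

private theorem Gl_map (h : Near ϖ (algebraMap K (v.adicCompletion K) a) (algebraMap K (v.adicCompletion K) b)
      (algebraMap K (v.adicCompletion K) A) (algebraMap K (v.adicCompletion K) B) τ)
    (u : HeightOneSpectrum (𝓞 k)) (hov : Pool.Agent.H10.Over v u) :
    Near (hov.map ϖ) (algebraMap k (u.adicCompletion k) (algebraMap K k a))
      (algebraMap k (u.adicCompletion k) (algebraMap K k b))
      (algebraMap k (u.adicCompletion k) (algebraMap K k A))
      (algebraMap k (u.adicCompletion k) (algebraMap K k B)) (fun j => hov.map (τ j)) := by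
  have hn := Near.map hov h
  have e1 := hov.map_algebraMap a
  have e2 := hov.map_algebraMap b
  have e3 := hov.map_algebraMap A
  have e4 := hov.map_algebraMap B
  rw [← e1, ← e2, ← e3, ← e4]
  exact hn

private theorem Gl_key (h : Near ϖ (algebraMap K (v.adicCompletion K) a) (algebraMap K (v.adicCompletion K) b)
      (algebraMap K (v.adicCompletion K) A) (algebraMap K (v.adicCompletion K) B) τ)
    {d : Fin 3 → k} (hd : Te_nf (algebraMap K k A) (algebraMap K k B) d ≠ 0)
    (u : HeightOneSpectrum (𝓞 k)) (hov : Pool.Agent.H10.Over v u) :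
      ∃ c : u.adicCompletion k, c ≠ 0 ∧ ∀ τ1 : Fin 3 → u.adicCompletion k,
        (∀ j, Valued.v (τ1 j - hov.map (τ j)) < Valued.v c) →
        ∃ t : Fin 3 → u.adicCompletion k,
          Te_nf (algebraMap k (u.adicCompletion k) (algebraMap K k a))
            (algebraMap k (u.adicCompletion k) (algebraMap K k b)) t ≠ 0 ∧
          ph (algebraMap k (u.adicCompletion k) (algebraMap K k a))
            (algebraMap k (u.adicCompletion k) (algebraMap K k b)) τ1
            (fun j => algebraMap k (u.adicCompletion k) (d j)) =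
          m3 (algebraMap k (u.adicCompletion k) (algebraMap K k a))
            (algebraMap k (u.adicCompletion k) (algebraMap K k b))
            (ph (algebraMap k (u.adicCompletion k) (algebraMap K k a))
              (algebraMap k (u.adicCompletion k) (algebraMap K k b)) (fun j => hov.map (τ j))
              (fun j => algebraMap k (u.adicCompletion k) (d j)))
            (m3 (algebraMap k (u.adicCompletion k) (algebraMap K k a))
              (algebraMap k (u.adicCompletion k) (algebraMap K k b)) t t) := by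
  have hc := Gl_char u
  refine ph_near (Gl_map h u hov) ?_
  rw [Te_nf_map]
  exact (map_ne_zero _).2 hd

private theorem Gl_norm (h : Near ϖ (algebraMap K (v.adicCompletion K) a) (algebraMap K (v.adicCompletion K) b)
      (algebraMap K (v.adicCompletion K) A) (algebraMap K (v.adicCompletion K) B) τ)
    (d : Fin 3 → k) (u : HeightOneSpectrum (𝓞 k)) (hov : Pool.Agent.H10.Over v u) :
      Te_nf (algebraMap k (u.adicCompletion k) (algebraMap K k a))
        (algebraMap k (u.adicCompletion k) (algebraMap K k b))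
        (ph (algebraMap k (u.adicCompletion k) (algebraMap K k a))
          (algebraMap k (u.adicCompletion k) (algebraMap K k b)) (fun j => hov.map (τ j))
          (fun j => algebraMap k (u.adicCompletion k) (d j))) =
      algebraMap k (u.adicCompletion k) (Te_nf (algebraMap K k A) (algebraMap K k B) d) := by
  exact (Gl_nf (Gl_map h u hov) _).trans (Te_nf_map (algebraMap k (u.adicCompletion k)) _ _ _)

/-- One power of the uniformiser for all primes above. -/
private theorem Gl_pow (v : HeightOneSpectrum (𝓞 K)) (P : ∀ u : HeightOneSpectrum (𝓞 k), Pool.Agent.H10.Over v u → u.adicCompletion k)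
    (hP : ∀ u hov, P u hov ≠ 0) :
    ∃ c : K, c ≠ 0 ∧ ∀ u : HeightOneSpectrum (𝓞 k), dn K u = v → ∀ hov : Pool.Agent.H10.Over v u,
      u.valuation k (algebraMap K k c) < Valued.v (P u hov) := by
  obtain ⟨π, hπ⟩ := v.valuation_exists_uniformizer K
  have hπ0 : π ≠ 0 := by
    rintro rfl
    rw [map_zero] at hπ
    exact absurd hπ.symm exp_ne_zero
  have hπ1 : v.valuation K π < 1 := by
    rw [hπ, ← exp_zero, exp_lt_exp]
    norm_num
  have hfin : {u : HeightOneSpectrum (𝓞 k) | dn K u = v}.Finite := fin_above v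
  have hev : ∀ᶠ m : ℕ in Filter.atTop, ∀ u ∈ {u : HeightOneSpectrum (𝓞 k) | dn K u = v},
      ∀ hov : Pool.Agent.H10.Over v u,
        u.valuation k (algebraMap K k (π ^ m)) < Valued.v (P u hov) := by
    rw [Filter.eventually_all_finite hfin]
    intro u hu
    have hu' : dn K u = v := hu
    have hov' : Pool.Agent.H10.Over v u := by
      rw [← hu']
      exact over_dn u
    have h1 := v_lt_one hov' hπ1
    have h2 : Valued.v (P u hov') ≠ 0 := (Valuation.ne_zero_iff _).2 (hP u hov')
    obtain ⟨n, hn⟩ := exists_pow_lt₀ h1 (Units.mk0 _ h2)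
    rw [Units.val_mk0] at hn
    refine Filter.eventually_atTop.2 ⟨n, fun m hm _ => ?_⟩
    rw [map_pow, map_pow]
    exact (pow_le_pow_right_of_le_one' h1.le hm).trans_lt hn
  obtain ⟨m, hm⟩ := hev.exists
  exact ⟨π ^ m, pow_ne_zero _ hπ0, hm⟩

private theorem Gl_d1 (h : Near ϖ (algebraMap K (v.adicCompletion K) a) (algebraMap K (v.adicCompletion K) b)
      (algebraMap K (v.adicCompletion K) A) (algebraMap K (v.adicCompletion K) B) τ)
    {d : Fin 3 → k} (hd : Te_nf (algebraMap K k A) (algebraMap K k B) d ≠ 0) :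
    ∃ d1 : Fin 3 → k, ∀ u : HeightOneSpectrum (𝓞 k), dn K u = v → ∀ hov : Pool.Agent.H10.Over v u,
      ∃ t : Fin 3 → u.adicCompletion k,
          Te_nf (algebraMap k (u.adicCompletion k) (algebraMap K k a))
            (algebraMap k (u.adicCompletion k) (algebraMap K k b)) t ≠ 0 ∧
          (fun j => algebraMap k (u.adicCompletion k) (d1 j)) =
          m3 (algebraMap k (u.adicCompletion k) (algebraMap K k a))
            (algebraMap k (u.adicCompletion k) (algebraMap K k b))
            (ph (algebraMap k (u.adicCompletion k) (algebraMap K k a))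
              (algebraMap k (u.adicCompletion k) (algebraMap K k b)) (fun j => hov.map (τ j))
              (fun j => algebraMap k (u.adicCompletion k) (d j)))
            (m3 (algebraMap k (u.adicCompletion k) (algebraMap K k a))
              (algebraMap k (u.adicCompletion k) (algebraMap K k b)) t t) := by
  choose P hP0 hP using fun (u : HeightOneSpectrum (𝓞 k)) (hov : Pool.Agent.H10.Over v u) => Gl_key h hd u hov
  obtain ⟨c, hc0, hc⟩ := Gl_pow v P hP0
  have hc1 : algebraMap K (v.adicCompletion K) c ≠ 0 := (map_ne_zero _).2 hc0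
  choose σ hσ using fun j => Gl_near v (τ j) hc1
  refine ⟨ph (algebraMap K k a) (algebraMap K k b) (fun j => algebraMap K k (σ j)) d, ?_⟩
  intro u hu hov
  obtain ⟨t, ht, hte⟩ := hP u hov
    (fun j => algebraMap k (u.adicCompletion k) (algebraMap K k (σ j))) (by
      intro j
      have h1 := map_lt hov (hσ j)
      rw [map_sub, hov.map_algebraMap, hov.map_algebraMap, Gl_val u (algebraMap K k c)] at h1
      exact h1.trans (hc u hu hov))
  refine ⟨t, ht, ?_⟩
  rw [← hte]
  exact Gl_ph_map (algebraMap k (u.adicCompletion k)) _ _ _ _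

end

theorem glob {K k : Type} [Field K] [NumberField K] [Field k] [NumberField k] [Algebra K k]
    {v : HeightOneSpectrum (𝓞 K)} {a b A B : K} {ϖ : v.adicCompletion K} {τ : Fin 3 → v.adicCompletion K}
    (h : Near ϖ (algebraMap K (v.adicCompletion K) a) (algebraMap K (v.adicCompletion K) b)
      (algebraMap K (v.adicCompletion K) A) (algebraMap K (v.adicCompletion K) B) τ)
    {d : Fin 3 → k} (hd : Te_nf (algebraMap K k A) (algebraMap K k B) d ≠ 0)
    (hsq : IsSquare (Te_nf (algebraMap K k A) (algebraMap K k B) d)) :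
    ∃ d0 : Fin 3 → k, Te_nf (algebraMap K k a) (algebraMap K k b) d0 ≠ 0 ∧
      IsSquare (Te_nf (algebraMap K k a) (algebraMap K k b) d0) ∧
      ∀ (u : HeightOneSpectrum (𝓞 k)), dn K u = v → ∀ hov : Pool.Agent.H10.Over v u,
        ∃ s : Fin 3 → u.adicCompletion k,
          Te_nf (algebraMap k (u.adicCompletion k) (algebraMap K k a))
            (algebraMap k (u.adicCompletion k) (algebraMap K k b)) s ≠ 0 ∧
          (fun j => algebraMap k (u.adicCompletion k) (d0 j)) =
            m3 (algebraMap k (u.adicCompletion k) (algebraMap K k a))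
              (algebraMap k (u.adicCompletion k) (algebraMap K k b))
              (ph (algebraMap k (u.adicCompletion k) (algebraMap K k a))
                (algebraMap k (u.adicCompletion k) (algebraMap K k b)) (fun j => hov.map (τ j))
                (fun j => algebraMap k (u.adicCompletion k) (d j)))
              (m3 (algebraMap k (u.adicCompletion k) (algebraMap K k a))
                (algebraMap k (u.adicCompletion k) (algebraMap K k b)) s s) := by
  obtain ⟨d1, himg⟩ := Gl_d1 h hd
  have hN0 : Te_nf (algebraMap K k a) (algebraMap K k b) d1 ≠ 0 := by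
    obtain ⟨u, hu⟩ := exists_above (L := k) v
    have hov : Pool.Agent.H10.Over v u := by
      rw [← hu]
      exact over_dn u
    obtain ⟨t, ht, hte⟩ := himg u hu hov
    have h1 := Gl_N (algebraMap k (u.adicCompletion k)) (Gl_norm h d u hov) hte
    have h2 : algebraMap k (u.adicCompletion k) (Te_nf (algebraMap K k a) (algebraMap K k b) d1) ≠ 0 := by
      rw [h1]
      exact mul_ne_zero ((map_ne_zero _).2 hd) (pow_ne_zero _ ht)
    exact (map_ne_zero _).1 h2
  obtain ⟨n, hn⟩ := hsq
  have hn0 : n ≠ 0 := by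
    rintro rfl
    rw [mul_zero] at hn
    exact hd hn
  have hnf : Te_nf (algebraMap K k a) (algebraMap K k b)
      (fun j => Te_nf (algebraMap K k a) (algebraMap K k b) d1 * d1 j) =
        Te_nf (algebraMap K k a) (algebraMap K k b) d1 ^ 2 * Te_nf (algebraMap K k a) (algebraMap K k b) d1 ^ 2 := by
    rw [Gl_nf_smul]
    ring
  refine ⟨fun j => Te_nf (algebraMap K k a) (algebraMap K k b) d1 * d1 j, ?_, ⟨_, hnf⟩, ?_⟩
  · rw [hnf]
    exact mul_ne_zero (pow_ne_zero _ hN0) (pow_ne_zero _ hN0)
  · intro u hu hov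
    obtain ⟨t, ht, hte⟩ := himg u hu hov
    exact Gl_last (algebraMap k (u.adicCompletion k)) hn0 hn ht (Gl_norm h d u hov) hte

end H36LG
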