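import Pool.Agent.H36.LG.Fx

/-!
ROW Ta (project MP_78d38b_LG, about 170 lines): the root of `T^3 + A T + B` in `F[T] / (T^3 + a T + b)` close to `T`. Use only the STATEMENTS of the imports.

PROOF. Write `u v` for `m3 a b u v`, `Δ = dl a b`. `ω = ![4 a^2, -9 b, 6 a]` satisfies `m3 a b ω ![a, 0, 3] = cst Δ` (that is `(6 a T^2 - 9 b T + 4 a^2) (3 T^2 + a) = Δ` in the algebra; `funext j; fin_cases j <;> simp [m3, cst, dl] <;> ring`).
`κ = ![B - b, A - a, 0]`. Let `c0 = Δ^(-2) (ω κ)`, `c1 = (A - a) Δ^(-1) ω`, `c2 = 3 (ω TT)`, `c3 = Δ ω` and `G Y = -(c0 + c1 Y + c2 (Y Y) + c3 (Y (Y Y)))` (products `m3 a b`). `ω`, `c2`, `c3` are integral (`v_ofNat`, `v_dl`, `m3_bd`).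
Let `m = max |A - a| |B - b|`, `ρ = m / |Δ|^2 < |16 Δ^2| ≤ 1` (from hA, hB, `|16 Δ^4| = |16 Δ^2| |Δ|^2`; for `ρ < 1` use `|16| < 1`). `|c0| ≤ ρ`, `|c1| ≤ ρ` (`|Δ| ≤ 1`). For `|Y|, |Z| ≤ ρ`, `|Y - Z| ≤ δ`: `G Y - G Z = -(c1 (Y - Z) + c2 ((Y - Z) (Y + Z)) + c3 ((Y - Z) (Y Y + Y Z + Z Z)))`
has size `≤ ρ δ`. `fix_pt` (`γ = ρ`) gives `Y = G Y`, `|Y| ≤ ρ`. Put `τ = TT + Δ Y`. With `σ = Δ Y`: `T^3 + A T + B = κ` and `(3 T^2 + a) + (A - a) = 3 T^2 + A` in the algebra, so (polynomial identity, `fin_cases j <;> simp [m3, ...] <;> ring`)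
`τ^3 + A τ + B = κ + ![a,0,3] σ + (A - a) σ + 3 T σ^2 + σ^3`. Multiply by `ω`: `ω (τ^3 + A τ + B) = ω κ + Δ σ + (A - a) ω σ + 3 ω T σ^2 + ω σ^3 = Δ^2 (c0 + Y + c1 Y + c2 Y^2 + c3 Y^3) = 0`. Since `ω ![a,0,3] = Δ ≠ 0`, multiplication by `![a,0,3]` and division by `Δ`
give `τ^3 + A τ + B = 0`, that is `Rt`. `|τ j - TT j| = |Δ Y j| ≤ |Δ| ρ < |16 Δ^3|`. The other fields of `Near`: `|A - a| < |16 Δ^4| ≤ |16 Δ^3|`.
-/

set_option autoImplicit false
set_option linter.unusedSectionVars false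
open scoped Classical

open WithZero NumberField IsDedekindDomain H76PP H36CY

namespace H36LG

variable {F : Type*} [Field F] [Valued F (WithZero (Multiplicative ℤ))]

/-- the cofactor of the derivative -/
def Ta_om (a b : F) : Fin 3 → F := ![4 * a ^ 2, -9 * b, 6 * a]

/-- the value of `T^3 + A T + B` -/
def Ta_ka (a b A B : F) : Fin 3 → F := ![B - b, A - a, 0]

theorem Ta_der (a b : F) : m3 a b (Ta_om a b) ![a, 0, 3] = cst (dl a b) := by
  funext j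
  fin_cases j <;> simp [m3, Ta_om, cst, dl] <;> ring

theorem Ta_key (a b A B : F) (s : Fin 3 → F) (j : Fin 3) :
    m3 a b (Ta_om a b) (fun i => m3 a b (fun l => TT l + s l)
      (m3 a b (fun l => TT l + s l) (fun l => TT l + s l)) i + A * (TT i + s i) + cst B i) j =
    m3 a b (Ta_om a b) (Ta_ka a b A B) j + dl a b * s j + (A - a) * m3 a b (Ta_om a b) s j +
      3 * m3 a b (m3 a b (Ta_om a b) TT) (m3 a b s s) j +
      m3 a b (Ta_om a b) (m3 a b s (m3 a b s s)) j := by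
  fin_cases j <;> simp [m3, TT, cst, dl, Ta_om, Ta_ka] <;> ring

theorem Ta_dif (a b : F) (c0 c1 c2 c3 Y Z : Fin 3 → F) (j : Fin 3) :
    -(c0 j + m3 a b c1 Y j + m3 a b c2 (m3 a b Y Y) j + m3 a b c3 (m3 a b Y (m3 a b Y Y)) j) -
      -(c0 j + m3 a b c1 Z j + m3 a b c2 (m3 a b Z Z) j + m3 a b c3 (m3 a b Z (m3 a b Z Z)) j) =
    -(m3 a b c1 (fun i => Y i - Z i) j +
      m3 a b c2 (m3 a b (fun i => Y i - Z i) (fun i => Y i + Z i)) j +
      m3 a b c3 (m3 a b (fun i => Y i - Z i)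
        (fun i => m3 a b Y Y i + m3 a b Y Z i + m3 a b Z Z i)) j) := by
  fin_cases j <;> simp [m3] <;> ring

theorem Ta_bd_mono {γ δ : WithZero (Multiplicative ℤ)} {z : Fin 3 → F} (h : Bd γ z)
    (hd : γ ≤ δ) : Bd δ z := fun j => (h j).trans hd

theorem exists_tau [CompleteSpace F] {ϖ a b A B : F} (ia : Valued.v a ≤ 1) (ib : Valued.v b ≤ 1)
    (ne : dl a b ≠ 0) (w0 : ϖ ≠ 0) (w1 : Valued.v ϖ < 1) (w4 : Valued.v ϖ ≤ Valued.v (4 : F))
    (hA : Valued.v (A - a) < Valued.v (ϖ ^ 2 * dl a b ^ 4))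
    (hB : Valued.v (B - b) < Valued.v (ϖ ^ 2 * dl a b ^ 4)) : ∃ τ : Fin 3 → F, Near ϖ a b A B τ := by
  obtain ⟨x, hx⟩ : ∃ x, x = Valued.v (dl a b) := ⟨_, rfl⟩
  obtain ⟨y, hy⟩ : ∃ y, y = Valued.v (ϖ ^ 2 : F) := ⟨_, rfl⟩
  have hx0 : x ≠ 0 := by
    rw [hx]
    exact (Valuation.ne_zero_iff _).2 ne
  have hxp : 0 < x := zero_lt_iff.2 hx0
  have hx1 : x ≤ 1 := by
    rw [hx]
    exact v_dl ia ib
  have hy1 : y < 1 := by
    rw [hy, map_pow]
    exact pow_lt_one' w1 (by norm_num)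
  have e4 : Valued.v (ϖ ^ 2 * dl a b ^ 4) = y * x ^ 4 := by
    rw [map_mul, map_pow Valued.v (dl a b), ← hx, ← hy]
  have e3 : Valued.v (ϖ ^ 2 * dl a b ^ 3) = y * x ^ 3 := by
    rw [map_mul, map_pow Valued.v (dl a b), ← hx, ← hy]
  rw [e4] at hA hB
  obtain ⟨m, hm⟩ : ∃ m, m = max (Valued.v (A - a)) (Valued.v (B - b)) := ⟨_, rfl⟩
  have hmA : Valued.v (A - a) ≤ m := by
    rw [hm]
    exact le_max_left _ _
  have hmB : Valued.v (B - b) ≤ m := by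
    rw [hm]
    exact le_max_right _ _
  have hm4 : m < y * x ^ 4 := by
    rw [hm]
    exact max_lt hA hB
  obtain ⟨ρ, hρ⟩ : ∃ ρ, ρ = m * (x ^ 2)⁻¹ := ⟨_, rfl⟩
  have hx2 : x ^ 2 ≠ 0 := pow_ne_zero _ hx0
  have hρm : ρ * x ^ 2 = m := by
    rw [hρ, mul_assoc, inv_mul_cancel₀ hx2, mul_one]
  have hρ2 : ρ < y * x ^ 2 := by
    have h1 : ρ * x ^ 2 < y * x ^ 2 * x ^ 2 := by
      rw [hρm, mul_assoc, ← pow_add]
      exact hm4
    exact lt_of_mul_lt_mul_right' h1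
  have hρ1 : ρ < 1 := by
    refine hρ2.trans_le ?_
    exact mul_le_one' hy1.le (pow_le_one' hx1 2)
  have hmρ : m ≤ ρ := by
    rw [← hρm]
    exact (mul_le_mul' le_rfl (pow_le_one' hx1 2)).trans_eq (mul_one _)
  -- the coefficients
  have bo : Bd 1 (Ta_om a b) := by
    intro j
    fin_cases j
    · show Valued.v (4 * a ^ 2) ≤ 1
      rw [map_mul, map_pow]
      exact mul_le_one' (v_ofNat 4) (pow_le_one' ia 2)
    · show Valued.v (-9 * b) ≤ 1
      rw [map_mul, Valuation.map_neg]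
      exact mul_le_one' (v_ofNat 9) ib
    · show Valued.v (6 * a) ≤ 1
      rw [map_mul]
      exact mul_le_one' (v_ofNat 6) ia
  have bk : Bd m (Ta_ka a b A B) := by
    intro j
    fin_cases j
    · exact hmB
    · exact hmA
    · show Valued.v (0 : F) ≤ m
      rw [map_zero]
      exact zero_le
  have bT : Bd 1 (TT : Fin 3 → F) := by
    intro j
    fin_cases j
    · show Valued.v (0 : F) ≤ 1
      rw [map_zero]
      exact zero_le
    · exact le_of_eq (map_one _)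
    · show Valued.v (0 : F) ≤ 1
      rw [map_zero]
      exact zero_le
  obtain ⟨c0, hc0⟩ : ∃ c0 : Fin 3 → F, c0 = fun j => (dl a b ^ 2)⁻¹ *
    m3 a b (Ta_om a b) (Ta_ka a b A B) j := ⟨_, rfl⟩
  obtain ⟨c1, hc1⟩ : ∃ c1 : Fin 3 → F, c1 = fun j => ((A - a) * (dl a b)⁻¹) * Ta_om a b j :=
    ⟨_, rfl⟩
  obtain ⟨c2, hc2⟩ : ∃ c2 : Fin 3 → F, c2 = fun j => 3 * m3 a b (Ta_om a b) TT j := ⟨_, rfl⟩
  obtain ⟨c3, hc3⟩ : ∃ c3 : Fin 3 → F, c3 = fun j => dl a b * Ta_om a b j := ⟨_, rfl⟩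
  have b0 : Bd ρ c0 := by
    intro j
    have h1 := m3_bd ia ib bo bk j
    rw [one_mul] at h1
    rw [hc0]
    dsimp only
    rw [map_mul, map_inv₀, map_pow, ← hx, hρ, mul_comm]
    exact mul_le_mul' h1 le_rfl
  have b1 : Bd ρ c1 := by
    intro j
    rw [hc1]
    dsimp only
    rw [map_mul, map_mul, map_inv₀, ← hx]
    refine (mul_le_mul' le_rfl (bo j)).trans ?_
    rw [mul_one, hρ]
    refine mul_le_mul' hmA ?_
    refine inv_anti₀ (pow_pos hxp 2) ?_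
    rw [pow_two]
    exact (mul_le_mul' hx1 le_rfl).trans_eq (one_mul _)
  have b2 : Bd 1 c2 := by
    intro j
    have h1 := m3_bd ia ib bo bT j
    rw [one_mul] at h1
    rw [hc2]
    dsimp only
    rw [map_mul]
    exact mul_le_one' (v_ofNat 3) h1
  have b3 : Bd 1 c3 := by
    intro j
    rw [hc3]
    dsimp only
    rw [map_mul, ← hx]
    exact mul_le_one' hx1 (bo j)
  obtain ⟨G, hG⟩ : ∃ G : (Fin 3 → F) → Fin 3 → F, G = fun Y j => -(c0 j + m3 a b c1 Y j +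
    m3 a b c2 (m3 a b Y Y) j + m3 a b c3 (m3 a b Y (m3 a b Y Y)) j) := ⟨_, rfl⟩
  have g0 : ∀ j, Valued.v (G 0 j) ≤ ρ := by
    intro j
    have h1 : G 0 j = -c0 j := by
      rw [hG]
      fin_cases j <;> simp [m3]
    rw [h1, Valuation.map_neg]
    exact b0 j
  have gd : ∀ Y Z : Fin 3 → F, (∀ j, Valued.v (Y j) ≤ ρ) → (∀ j, Valued.v (Z j) ≤ ρ) →
      ∀ δ : WithZero (Multiplicative ℤ), (∀ j, Valued.v (Y j - Z j) ≤ δ) →
        ∀ j, Valued.v (G Y j - G Z j) ≤ ρ * δ := by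
    intro Y Z hY hZ δ hδ j
    have h1 := Ta_dif a b c0 c1 c2 c3 Y Z j
    rw [hG]
    dsimp only
    rw [h1, Valuation.map_neg]
    have hD : Bd δ (fun i => Y i - Z i) := hδ
    have hS : Bd ρ (fun i => Y i + Z i) := bd_add hY hZ
    have hρρ : ρ * ρ ≤ ρ := (mul_le_mul' hρ1.le le_rfl).trans_eq (one_mul _)
    have hQ : Bd ρ (fun i => m3 a b Y Y i + m3 a b Y Z i + m3 a b Z Z i) :=
      Ta_bd_mono (bd_add (bd_add (m3_bd ia ib hY hY) (m3_bd ia ib hY hZ)) (m3_bd ia ib hZ hZ)) hρρ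
    refine Valuation.map_add_le _ (Valuation.map_add_le _ ?_ ?_) ?_
    · exact m3_bd ia ib b1 hD j
    · refine (m3_bd ia ib b2 (m3_bd ia ib hD hS) j).trans_eq ?_
      rw [one_mul, mul_comm]
    · refine (m3_bd ia ib b3 (m3_bd ia ib hD hQ) j).trans_eq ?_
      rw [one_mul, mul_comm]
  obtain ⟨Y, hY, hfix⟩ := fix_pt G hρ1 g0 gd
  obtain ⟨s, hs⟩ : ∃ s : Fin 3 → F, s = fun j => dl a b * Y j := ⟨_, rfl⟩
  have m3r : ∀ (c : F) (u v : Fin 3 → F), m3 a b u (fun j => c * v j) = fun j => c * m3 a b u v j := by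
    intro c u v
    rw [m3_comm, m3_smul, m3_comm v u]
  -- the equation
  have hz : ∀ j, m3 a b (Ta_om a b) (fun i => m3 a b (fun l => TT l + s l)
      (m3 a b (fun l => TT l + s l) (fun l => TT l + s l)) i + A * (TT i + s i) + cst B i) j =
      0 := by
    intro j
    rw [Ta_key]
    have h1 : Y j = -(c0 j + m3 a b c1 Y j + m3 a b c2 (m3 a b Y Y) j +
        m3 a b c3 (m3 a b Y (m3 a b Y Y)) j) := by
      have h2 := congrFun hfix j
      rw [hG] at h2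
      exact h2.symm
    rw [hc0, hc1, hc2, hc3] at h1
    rw [m3_smul, m3_smul, m3_smul] at h1
    dsimp only at h1
    have h3 : m3 a b s s = fun j => dl a b * (dl a b * m3 a b Y Y j) := by
      rw [hs, m3_smul, m3r]
    have h4 : m3 a b s (m3 a b s s) = fun j =>
        dl a b * (dl a b * (dl a b * m3 a b Y (m3 a b Y Y) j)) := by
      rw [h3, m3r, m3r, hs, m3_smul]
    have h5 : m3 a b (Ta_om a b) s = fun j => dl a b * m3 a b (Ta_om a b) Y j := by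
      rw [hs, m3r]
    rw [h4, h3, h5, m3r, m3r, m3r, m3r, m3r]
    have h6 : s j = dl a b * Y j := by rw [hs]
    rw [h6]
    dsimp only
    generalize m3 a b (Ta_om a b) (Ta_ka a b A B) j = X0 at h1 ⊢
    generalize m3 a b (Ta_om a b) Y j = X1 at h1 ⊢
    generalize m3 a b (m3 a b (Ta_om a b) TT) (m3 a b Y Y) j = X2 at h1 ⊢
    generalize m3 a b (Ta_om a b) (m3 a b Y (m3 a b Y Y)) j = X3 at h1 ⊢
    generalize dl a b = Δ at h1 ne ⊢
    rw [h1]
    field_simp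
    ring
  have hR : ∀ j, m3 a b (fun l => TT l + s l)
      (m3 a b (fun l => TT l + s l) (fun l => TT l + s l)) j + A * (TT j + s j) + cst B j =
      0 := by
    intro j
    have h1 := funext hz
    have h2 := congrArg (fun u => m3 a b ![a, 0, 3] u) h1
    rw [← m3_assoc, m3_comm ![a, 0, 3] (Ta_om a b), Ta_der] at h2
    have h3 := congrFun h2 j
    rw [m3_cst] at h3
    have h4 : m3 a b ![a, 0, 3] (fun _ => (0 : F)) j = 0 := by
      fin_cases j <;> simp [m3]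
    rw [h4] at h3
    exact (mul_eq_zero.1 h3).resolve_left ne
  refine ⟨fun l => TT l + s l, ⟨ia, ib, ne, w0, w1, w4, ?_, ?_, hR, ?_⟩⟩
  · rw [e3]
    refine hA.trans_le (mul_le_mul' le_rfl ?_)
    exact pow_le_pow_right_of_le_one' hx1 (by norm_num)
  · rw [e3]
    refine hB.trans_le (mul_le_mul' le_rfl ?_)
    exact pow_le_pow_right_of_le_one' hx1 (by norm_num)
  · intro j
    rw [e3, add_sub_cancel_left, hs]
    dsimp only
    rw [map_mul, ← hx]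
    have h1 : y * x ^ 3 = x * (y * x ^ 2) := by
      rw [pow_succ' x 2, mul_left_comm]
    rw [h1]
    exact mul_lt_mul_of_pos_left ((hY j).trans_lt hρ2) hxp

end H36LG
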