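import Pool.Agent.H36.LG.Lt
import Pool.Agent.H36.LG.Gl
import Pool.Agent.H36.LG.Ta
import Pool.Agent.H36.CY.Ld

/-!
The local descent at a prime is an open condition (project MP_78d38b_LG, no row; assembly).
-/

set_option autoImplicit false
set_option linter.unusedSectionVars false
open scoped Classical

open WithZero NumberField IsDedekindDomain H76PP H73P2 H36CY

namespace H36LG

theorem descAt_near {K : Type} [Field K] [NumberField K] {v : HeightOneSpectrum (𝓞 K)}
    {a b A B : K} {ϖ : v.adicCompletion K} {τ : Fin 3 → v.adicCompletion K}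
    (h : Near ϖ (algebraMap K (v.adicCompletion K) a) (algebraMap K (v.adicCompletion K) b)
      (algebraMap K (v.adicCompletion K) A) (algebraMap K (v.adicCompletion K) B) τ)
    {N : Type} [Field N] [NumberField N] [Algebra K N] (hD : DescAt K N v a b) :
    DescAt K N v A B := by
  intro k k' _ _ _ _ _ _ _ _ _ _ _ _ _ two d hd hsq hloc u hu
  obtain ⟨d0, hd0, hsq0, hs⟩ := glob h hd hsq
  have hmap : ∀ (u : HeightOneSpectrum (𝓞 k)) (hov : Pool.Agent.H10.Over v u),
      Near (hov.map ϖ) (algebraMap k (u.adicCompletion k) (algebraMap K k a))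
        (algebraMap k (u.adicCompletion k) (algebraMap K k b))
        (algebraMap k (u.adicCompletion k) (algebraMap K k A))
        (algebraMap k (u.adicCompletion k) (algebraMap K k B)) (fun j => hov.map (τ j)) := by
    intro u hov
    have h1 := Near.map hov h
    simp only [Pool.Agent.H10.Over.map_algebraMap] at h1
    exact h1
  have hov : Pool.Agent.H10.Over v u := by
    rw [← hu]
    exact over_dn u
  have _ := char_zero u
  obtain ⟨s, hs0, hs1⟩ := hs u hu hov
  rw [LC_iff (algebraMap k (u.adicCompletion k)) (hmap u hov) hd hs0 hs1]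
  refine hD k k' two d0 hd0 hsq0 (fun u' hu' => ?_) u hu
  have hu2 : dn K (dn k u') = v := by rw [dn_dn, hu']
  have hov1 : Pool.Agent.H10.Over v (dn k u') := by
    rw [← hu2]
    exact over_dn _
  have hov2 : Pool.Agent.H10.Over (dn k u') u' := over_dn u'
  have _ := char_zero u'
  obtain ⟨s', hs0', hs1'⟩ := hs (dn k u') hu2 hov1
  have hN := Near.map hov2 (hmap (dn k u') hov1)
  simp only [Pool.Agent.H10.Over.map_algebraMap, ← IsScalarTower.algebraMap_apply K k k'] at hN
  have hd' : Te_nf (algebraMap K k' A) (algebraMap K k' B) (fun j => algebraMap k k' (d j)) ≠ 0 := by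
    rw [IsScalarTower.algebraMap_apply K k k', IsScalarTower.algebraMap_apply K k k', Te_nf_map]
    exact (map_ne_zero _).2 hd
  have e1 : Te_nf (algebraMap k' (u'.adicCompletion k') (algebraMap K k' a))
      (algebraMap k' (u'.adicCompletion k') (algebraMap K k' b)) (fun j => hov2.map (s' j)) ≠ 0 := by
    have h1 := Te_nf_map hov2.map (algebraMap k ((dn k u').adicCompletion k) (algebraMap K k a))
      (algebraMap k ((dn k u').adicCompletion k) (algebraMap K k b)) s'
    simp only [Pool.Agent.H10.Over.map_algebraMap, ← IsScalarTower.algebraMap_apply K k k'] at h1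
    rw [h1]
    exact (map_ne_zero _).2 hs0'
  have e2 : (fun j => algebraMap k' (u'.adicCompletion k') (algebraMap k k' (d0 j))) =
      m3 (algebraMap k' (u'.adicCompletion k') (algebraMap K k' a))
        (algebraMap k' (u'.adicCompletion k') (algebraMap K k' b))
        (ph (algebraMap k' (u'.adicCompletion k') (algebraMap K k' a))
          (algebraMap k' (u'.adicCompletion k') (algebraMap K k' b))
          (fun j => hov2.map (hov1.map (τ j)))
          (fun j => algebraMap k' (u'.adicCompletion k') (algebraMap k k' (d j))))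
        (m3 (algebraMap k' (u'.adicCompletion k') (algebraMap K k' a))
          (algebraMap k' (u'.adicCompletion k') (algebraMap K k' b)) (fun j => hov2.map (s' j))
          (fun j => hov2.map (s' j))) := by
    have key : ∀ (a b : (dn k u').adicCompletion k) (τ c s : Fin 3 → (dn k u').adicCompletion k)
        (j : Fin 3), hov2.map (m3 a b (ph a b τ c) (m3 a b s s) j) =
          m3 (hov2.map a) (hov2.map b) (ph (hov2.map a) (hov2.map b) (fun j => hov2.map (τ j))
            (fun j => hov2.map (c j))) (m3 (hov2.map a) (hov2.map b) (fun j => hov2.map (s j))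
              (fun j => hov2.map (s j))) j := by
      intro a b τ c s j
      fin_cases j <;> simp [m3, ph, cst]
    funext j
    have h1 := congrArg hov2.map (congrFun hs1' j)
    rw [key] at h1
    simp only [Pool.Agent.H10.Over.map_algebraMap, ← IsScalarTower.algebraMap_apply K k k'] at h1
    exact h1
  have h3 := LC_iff (algebraMap k' (u'.adicCompletion k')) hN hd' e1 e2
  exact h3.1 (hloc u' hu')

/-- Elements of a high power of a prime are small. -/
theorem exists_pow_small {K : Type} [Field K] [NumberField K] (v : HeightOneSpectrum (𝓞 K)) {c : K}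
    (hc : c ≠ 0) : ∃ e : ℕ, ∀ x : 𝓞 K, x ∈ v.asIdeal ^ e →
      v.valuation K (x : K) < v.valuation K c := by
  obtain ⟨e, he⟩ := exists_exp_neg_natCast_lt (x := v.valuation K c)
    ((Valuation.ne_zero_iff _).2 hc)
  refine ⟨e, fun x hx => lt_of_le_of_lt ?_ he⟩
  rw [v.valuation_of_algebraMap]
  exact (v.intValuation_le_pow_iff_mem x e).2 hx

/-- The local descent at a prime is an open condition. -/
theorem descAt_open {K : Type} [Field K] [NumberField K] (v : HeightOneSpectrum (𝓞 K))
    {a b : 𝓞 K} (hd : dsc a b ≠ 0) :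
    ∃ e : ℕ, dsc a b ∉ v.asIdeal ^ e ∧ ∀ A B : 𝓞 K, A - a ∈ v.asIdeal ^ e →
      B - b ∈ v.asIdeal ^ e → ∀ (N : Type) [Field N] [NumberField N] [Algebra K N],
        DescAt K N v (a : K) (b : K) → DescAt K N v (A : K) (B : K) := by
  obtain ⟨π, hπ⟩ := v.valuation_exists_uniformizer K
  have hπ0 : π ≠ 0 := by
    rintro rfl
    rw [map_zero] at hπ
    exact absurd hπ.symm exp_ne_zero
  have hπ1 : v.valuation K π < 1 := by
    rw [hπ, ← exp_zero, exp_lt_exp]
    norm_num
  have h40 : (4 : K) ≠ 0 := by norm_num
  have h4 : v.valuation K 4 ≤ 1 := by exact_mod_cast vn (v.valuation K) 4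
  obtain ⟨ϖ, hϖ⟩ : ∃ ϖ : K, ϖ = 4 * π := ⟨_, rfl⟩
  have w0 : ϖ ≠ 0 := by
    rw [hϖ]
    exact mul_ne_zero h40 hπ0
  have w1 : v.valuation K ϖ < 1 := by
    rw [hϖ, map_mul]
    exact (mul_le_of_le_one_left' h4).trans_lt hπ1
  have w4 : v.valuation K ϖ ≤ v.valuation K 4 := by
    rw [hϖ, map_mul]
    exact mul_le_of_le_one_right' hπ1.le
  have e0 : dl (a : K) (b : K) = ((dsc a b : 𝓞 K) : K) := by
    unfold dl dsc
    push_cast
    rfl
  have hdl : dl (a : K) (b : K) ≠ 0 := by
    rw [e0]
    intro h
    apply hd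
    apply RingOfIntegers.coe_injective
    rw [map_zero]
    exact h
  have h16 : ϖ ^ 2 * dl (a : K) (b : K) ^ 4 ≠ 0 := mul_ne_zero (pow_ne_zero 2 w0) (pow_ne_zero 4 hdl)
  obtain ⟨e, he⟩ := exists_pow_small v h16
  have hi : ∀ x : 𝓞 K, Valued.v (algebraMap K (v.adicCompletion K) (x : K)) ≤ 1 := by
    intro x
    rw [val_coe]
    exact v.valuation_le_one x
  have hdF : dl (algebraMap K (v.adicCompletion K) (a : K)) (algebraMap K (v.adicCompletion K) (b : K)) =
      algebraMap K (v.adicCompletion K) (dl (a : K) (b : K)) := by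
    unfold dl
    simp only [map_add, map_mul, map_pow, map_ofNat]
  refine ⟨e, fun h => ?_, fun A B hA hB N _ _ _ hD => ?_⟩
  · have h1 := he _ h
    rw [← e0, map_mul, map_pow, map_pow] at h1
    have h3 : v.valuation K (dl (a : K) (b : K)) ≤ 1 := by
      rw [e0]
      exact v.valuation_le_one _
    have h5 : v.valuation K (dl (a : K) (b : K)) ^ 4 ≤ v.valuation K (dl (a : K) (b : K)) := by
      calc v.valuation K (dl (a : K) (b : K)) ^ 4 =
          v.valuation K (dl (a : K) (b : K)) ^ 3 * v.valuation K (dl (a : K) (b : K)) := pow_succ _ 3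
        _ ≤ _ := mul_le_of_le_one_left' (pow_le_one' h3 3)
    exact absurd h1 (not_lt.2 ((mul_le_of_le_one_left' (pow_le_one' w1.le 2)).trans h5))
  · have hsm : ∀ x y : 𝓞 K, x - y ∈ v.asIdeal ^ e →
        Valued.v (algebraMap K (v.adicCompletion K) (x : K) -
          algebraMap K (v.adicCompletion K) (y : K)) <
          Valued.v (algebraMap K (v.adicCompletion K) ϖ ^ 2 *
            dl (algebraMap K (v.adicCompletion K) (a : K))
              (algebraMap K (v.adicCompletion K) (b : K)) ^ 4) := by
      intro x y hxy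
      have h1 := he _ hxy
      rw [hdF, ← map_pow, ← map_pow, ← map_mul, ← map_sub, val_coe, val_coe]
      have e2 : ((x - y : 𝓞 K) : K) = (x : K) - (y : K) := by push_cast; rfl
      rwa [e2] at h1
    have _ := char_zero v
    have hne : dl (algebraMap K (v.adicCompletion K) (a : K))
        (algebraMap K (v.adicCompletion K) (b : K)) ≠ 0 := by
      rw [hdF]
      exact (map_ne_zero _).2 hdl
    obtain ⟨τ, hτ⟩ := exists_tau (hi a) (hi b) hne (ϖ := algebraMap K (v.adicCompletion K) ϖ)
      ((map_ne_zero _).2 w0) (by rw [val_coe]; exact w1)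
      (by
        have e4 : (4 : v.adicCompletion K) = algebraMap K (v.adicCompletion K) 4 := by rw [map_ofNat]
        rw [e4, val_coe, val_coe]
        exact w4) (hsm A a hA) (hsm B b hB)
    exact descAt_near hτ hD

end H36LG
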