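import Pool.Agent.H36.LG.Fx

/-!
ROW Hc (project MP_78d38b_LG, about 150 lines): roots of cubic polynomials over a complete valued field. Use only the STATEMENTS of the imports.

PROOF of hens3: `fix_pt` with `ι = Unit`, `G Y = -(c0 + c2 Y^2 + c3 Y^3)`, `ρ = γ = |c0|`: `G Y - G Z = -(Y - Z) (c2 (Y + Z) + c3 (Y^2 + Y Z + Z^2))` and the second factor has valuation `≤ |c0|` for `|Y|, |Z| ≤ |c0| < 1`.

PROOF of dl_le (`|Δ| ≤ max |f'(x)| |f(x)|` for `x` integral): `4a^3 + 27b^2 = (6 a x^2 - 9 b x + 4 a^2) (3 x^2 + a) + (-18 a x + 27 b) (x^3 + a x + b)` (ring), all coefficients are integral (`v_ofNat`).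

PROOF of root_near: `|f(x)| < |Δ^2| ≤ |Δ|` (`v_dl`), so `|Δ| ≤ |f'(x)|` by dl_le, `f'(x) = D ≠ 0`, `c0 = f(x) / D^2`, `|c0| < 1` since `|f(x)| < |Δ|^2 ≤ |D|^2`. `hens3` with `c2 = 3 x`, `c3 = D`: `Y`, and `e = x + D Y`:
`e^3 + a e + b = f(x) + D (D Y) + 3 x (D Y)^2 + (D Y)^3 = D^2 (c0 + Y + 3 x Y^2 + D Y^3) = 0`. `|x - e| = |D Y| ≤ |D| |f(x)| / |D|^2 = |f(x)| / |D|`, so `|x - e| |Δ| ≤ |x - e| |D| ≤ |f(x)|`. `|e| ≤ 1` since `|x| ≤ 1`, `|D Y| ≤ 1`.
-/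

set_option autoImplicit false
set_option linter.unusedSectionVars false
open scoped Classical

open WithZero NumberField IsDedekindDomain H76PP H36CY

namespace H36LG

variable {F : Type*} [Field F] [Valued F (WithZero (Multiplicative ℤ))]

theorem v_ml1 {x y : F} (hx : Valued.v x ≤ 1) (hy : Valued.v y ≤ 1) : Valued.v (x * y) ≤ 1 := by
  rw [map_mul]
  exact mul_le_one' hx hy

theorem v_pw1 {x : F} (hx : Valued.v x ≤ 1) (n : ℕ) : Valued.v (x ^ n) ≤ 1 := by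
  rw [map_pow]
  exact pow_le_one' hx n

theorem v_mlr {x y : F} {ρ : WithZero (Multiplicative ℤ)} (hx : Valued.v x ≤ 1)
    (hy : Valued.v y ≤ ρ) : Valued.v (x * y) ≤ ρ := by
  rw [map_mul]
  exact (mul_le_mul' hx hy).trans_eq (one_mul _)

theorem hens3 [CompleteSpace F] {c0 c2 c3 : F} (h0 : Valued.v c0 < 1) (h2 : Valued.v c2 ≤ 1)
    (h3 : Valued.v c3 ≤ 1) : ∃ Y : F, c0 + Y + c2 * Y ^ 2 + c3 * Y ^ 3 = 0 ∧ Valued.v Y ≤ Valued.v c0 := by
  obtain ⟨Y, hY, hYe⟩ := fix_pt (F := F) (ι := Unit)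
    (fun Y _ => -(c0 + c2 * Y () ^ 2 + c3 * Y () ^ 3)) (ρ := Valued.v c0) (γ := Valued.v c0) h0
    (by
      intro j
      have e : -(c0 + c2 * (0 : Unit → F) () ^ 2 + c3 * (0 : Unit → F) () ^ 3) = -c0 := by
        rw [Pi.zero_apply]
        ring
      show Valued.v (-(c0 + c2 * (0 : Unit → F) () ^ 2 + c3 * (0 : Unit → F) () ^ 3)) ≤ Valued.v c0
      rw [e, Valuation.map_neg])
    (by
      intro Y Z hY hZ δ hδ j
      show Valued.v (-(c0 + c2 * Y () ^ 2 + c3 * Y () ^ 3) -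
        -(c0 + c2 * Z () ^ 2 + c3 * Z () ^ 3)) ≤ Valued.v c0 * δ
      have hy := hY ()
      have hz := hZ ()
      have hd := hδ ()
      generalize Y () = y at *
      generalize Z () = z at *
      have e : -(c0 + c2 * y ^ 2 + c3 * y ^ 3) - -(c0 + c2 * z ^ 2 + c3 * z ^ 3) =
          -((c2 * (y + z) + c3 * (y * y + y * z + z * z)) * (y - z)) := by
        ring
      rw [e, Valuation.map_neg, map_mul]
      have hy1 : Valued.v y ≤ 1 := hy.trans h0.le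
      have hz1 : Valued.v z ≤ 1 := hz.trans h0.le
      refine mul_le_mul' ?_ hd
      refine Valuation.map_add_le _ (v_mlr h2 (Valuation.map_add_le _ hy hz)) (v_mlr h3 ?_)
      exact Valuation.map_add_le _ (Valuation.map_add_le _ (v_mlr hy1 hy) (v_mlr hy1 hz))
        (v_mlr hz1 hz))
  refine ⟨Y (), ?_, hY ()⟩
  have h := congrFun hYe ()
  have h' : -(c0 + c2 * Y () ^ 2 + c3 * Y () ^ 3) = Y () := h
  linear_combination -h'

theorem dl_le {a b x : F} (ha : Valued.v a ≤ 1) (hb : Valued.v b ≤ 1) (hx : Valued.v x ≤ 1) :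
    Valued.v (dl a b) ≤ max (Valued.v (3 * x ^ 2 + a)) (Valued.v (x ^ 3 + a * x + b)) := by
  have e : dl a b = (6 * a * x ^ 2 - 9 * b * x + 4 * a ^ 2) * (3 * x ^ 2 + a) +
      (-(18 * a * x) + 27 * b) * (x ^ 3 + a * x + b) := by
    unfold dl
    ring
  have h1 : Valued.v (6 * a * x ^ 2 - 9 * b * x + 4 * a ^ 2) ≤ 1 := by
    refine Valuation.map_add_le _ (Valuation.map_sub_le _ ?_ ?_) ?_
    · exact v_ml1 (v_ml1 (v_ofNat 6) ha) (v_pw1 hx 2)
    · exact v_ml1 (v_ml1 (v_ofNat 9) hb) hx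
    · exact v_ml1 (v_ofNat 4) (v_pw1 ha 2)
  have h2 : Valued.v (-(18 * a * x) + 27 * b) ≤ 1 := by
    refine Valuation.map_add_le _ ?_ (v_ml1 (v_ofNat 27) hb)
    rw [Valuation.map_neg]
    exact v_ml1 (v_ml1 (v_ofNat 18) ha) hx
  rw [e]
  refine Valuation.map_add_le _ ?_ ?_
  · exact v_mlr h1 (le_max_left _ _)
  · exact v_mlr h2 (le_max_right _ _)

theorem root_near [CompleteSpace F] {a b x : F} (ha : Valued.v a ≤ 1) (hb : Valued.v b ≤ 1)
    (hx : Valued.v x ≤ 1) (hd : dl a b ≠ 0)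
    (h : Valued.v (x ^ 3 + a * x + b) < Valued.v (dl a b ^ 2)) :
    ∃ e : F, e ^ 3 + a * e + b = 0 ∧ Valued.v e ≤ 1 ∧
      Valued.v (x - e) * Valued.v (dl a b) ≤ Valued.v (x ^ 3 + a * x + b) := by
  have hdl := v_dl ha hb
  have hd0 : Valued.v (dl a b) ≠ 0 := (Valuation.ne_zero_iff _).2 hd
  have hsq : Valued.v (dl a b ^ 2) ≤ Valued.v (dl a b) := by
    rw [pow_two]
    exact v_mlr hdl le_rfl
  have hD : Valued.v (dl a b) ≤ Valued.v (3 * x ^ 2 + a) := by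
    rcases le_max_iff.1 (dl_le ha hb hx) with h1 | h1
    · exact h1
    · exact absurd h1 (not_le.2 (h.trans_le hsq))
  obtain ⟨D, hDe⟩ : ∃ D, D = 3 * x ^ 2 + a := ⟨_, rfl⟩
  obtain ⟨f, hf⟩ : ∃ f, f = x ^ 3 + a * x + b := ⟨_, rfl⟩
  rw [← hDe] at hD
  rw [← hf] at h ⊢
  have hD0 : D ≠ 0 := by
    rintro rfl
    rw [map_zero] at hD
    exact hd0 (le_antisymm hD zero_le)
  have hvD0 : Valued.v D ≠ 0 := (Valuation.ne_zero_iff _).2 hD0
  have hD1 : Valued.v D ≤ 1 := by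
    rw [hDe]
    exact Valuation.map_add_le _ (v_ml1 (v_ofNat 3) (v_pw1 hx 2)) ha
  have hfD : Valued.v f < Valued.v (D ^ 2) := by
    refine h.trans_le ?_
    rw [map_pow, map_pow]
    exact pow_le_pow_left' hD 2
  have hc0 : Valued.v (f / D ^ 2) < 1 := by
    rw [map_div₀]
    exact (div_lt_one₀ (zero_lt_iff.2 ((Valuation.ne_zero_iff _).2 (pow_ne_zero 2 hD0)))).2 hfD
  obtain ⟨Y, hY, hYv⟩ := hens3 (c0 := f / D ^ 2) (c2 := 3 * x) (c3 := D) hc0
    (v_ml1 (v_ofNat 3) hx) hD1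
  have hY1 : Valued.v Y ≤ 1 := hYv.trans hc0.le
  refine ⟨x + D * Y, ?_, Valuation.map_add_le _ hx (v_ml1 hD1 hY1), ?_⟩
  · have e1 : (x + D * Y) ^ 3 + a * (x + D * Y) + b =
        D ^ 2 * (f / D ^ 2 + Y + 3 * x * Y ^ 2 + D * Y ^ 3) := by
      have e2 : D ^ 2 * (f / D ^ 2 + Y + 3 * x * Y ^ 2 + D * Y ^ 3) =
          f + D ^ 2 * (Y + 3 * x * Y ^ 2 + D * Y ^ 3) := by
        field_simp
        ring
      rw [e2, hf]
      linear_combination (-(D * Y)) * hDe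
    rw [e1, hY, mul_zero]
  · have e3 : x - (x + D * Y) = -(D * Y) := by ring
    rw [e3, Valuation.map_neg, map_mul]
    have e4 : Valued.v Y * (Valued.v D * Valued.v D) ≤ Valued.v f := by
      have e5 : Valued.v f = Valued.v (f / D ^ 2) * (Valued.v D * Valued.v D) := by
        rw [← map_mul, ← map_mul]
        congr 1
        field_simp
      rw [e5]
      exact mul_le_mul' hYv le_rfl
    calc Valued.v D * Valued.v Y * Valued.v (dl a b)
        ≤ Valued.v D * Valued.v Y * Valued.v D := mul_le_mul' le_rfl hD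
      _ = Valued.v Y * (Valued.v D * Valued.v D) := by
          rw [mul_comm (Valued.v D) (Valued.v Y), mul_assoc]
      _ ≤ Valued.v f := e4

theorem der_le {a b e : F} (ha : Valued.v a ≤ 1) (hb : Valued.v b ≤ 1) (he : Valued.v e ≤ 1)
    (h : e ^ 3 + a * e + b = 0) : Valued.v (dl a b) ≤ Valued.v (3 * e ^ 2 + a) := by
  have h1 := dl_le ha hb he
  rw [h, map_zero] at h1
  exact h1.trans (max_le le_rfl zero_le)

end H36LG
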