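import Pool.Agent.H36.CY.Ag
import Pool.Agent.H36.CY.Cr
import Pool.Agent.H10.GrHen

/-!
Definitions for the project MP_78d38b_LG (no row): the local conditions at the primes above two are locally
constant in the coefficients of the curve.
-/

set_option autoImplicit false
set_option linter.unusedSectionVars false
open scoped Classical

open WithZero NumberField IsDedekindDomain H76PP H36CY

namespace H36LG

section Alg

variable {F : Type*} [Field F]

/-- The number `4 a^3 + 27 b^2`. -/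
def dl (a b : F) : F := 4 * a ^ 3 + 27 * b ^ 2

/-- The element `x` of `F[T] / (T^3 + a T + b)`. -/
def cst (x : F) : Fin 3 → F := ![x, 0, 0]

/-- The element `T`. -/
def TT : Fin 3 → F := ![0, 1, 0]

/-- The element `x - T`. -/
def xT (x : F) : Fin 3 → F := ![x, -1, 0]

/-- The element `x - τ`. -/
def xt (τ : Fin 3 → F) (x : F) : Fin 3 → F := ![x - τ 0, -τ 1, -τ 2]

/-- The element `c 0 + c 1 τ + c 2 τ^2` of `F[T] / (T^3 + a T + b)`. -/
def ph (a b : F) (τ c : Fin 3 → F) : Fin 3 → F :=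
  fun j => c 0 * cst (1 : F) j + c 1 * τ j + c 2 * m3 a b τ τ j

/-- The element `τ` of `F[T] / (T^3 + a T + b)` is a root of `T^3 + A T + B`. -/
def Rt (a b A B : F) (τ : Fin 3 → F) : Prop :=
  ∀ j, m3 a b τ (m3 a b τ τ) j + A * τ j + cst B j = 0

end Alg

section Val

variable {F : Type*} [Field F] [Valued F (WithZero (Multiplicative ℤ))]

/-- The pair `(A, B)` is close to `(a, b)`, the element `τ` of `F[T] / (T^3 + a T + b)` is a root of
`T^3 + A T + B` and close to `T`; the precision is given by an element `ϖ` with `|ϖ| < 1` and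
`|ϖ| ≤ |4|`. -/
structure Near (ϖ a b A B : F) (τ : Fin 3 → F) : Prop where
  ia : Valued.v a ≤ 1
  ib : Valued.v b ≤ 1
  ne : dl a b ≠ 0
  w0 : ϖ ≠ 0
  w1 : Valued.v ϖ < 1
  w4 : Valued.v ϖ ≤ Valued.v (4 : F)
  dA : Valued.v (A - a) < Valued.v (ϖ ^ 2 * dl a b ^ 3)
  dB : Valued.v (B - b) < Valued.v (ϖ ^ 2 * dl a b ^ 3)
  rt : Rt a b A B τ
  nr : ∀ j, Valued.v (τ j - TT j) < Valued.v (ϖ ^ 2 * dl a b ^ 3)

/-- All coordinates have valuation at most `γ`. -/
def Bd (γ : WithZero (Multiplicative ℤ)) (z : Fin 3 → F) : Prop := ∀ j, Valued.v (z j) ≤ γ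

theorem v_nat (n : ℕ) : Valued.v (n : F) ≤ 1 := by
  induction n with
  | zero => rw [Nat.cast_zero, map_zero]; exact zero_le
  | succ n ih =>
    rw [Nat.cast_succ]
    exact Valuation.map_add_le _ ih (le_of_eq (map_one _))

theorem v_ofNat (n : ℕ) [n.AtLeastTwo] : Valued.v (OfNat.ofNat n : F) ≤ 1 := by
  exact_mod_cast v_nat (F := F) n

theorem v_dl {a b : F} (ha : Valued.v a ≤ 1) (hb : Valued.v b ≤ 1) : Valued.v (dl a b) ≤ 1 := by
  unfold dl
  refine Valuation.map_add_le _ ?_ ?_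
  · rw [map_mul, map_pow]
    exact mul_le_one' (v_ofNat 4) (pow_le_one' ha 3)
  · rw [map_mul, map_pow]
    exact mul_le_one' (v_ofNat 27) (pow_le_one' hb 2)

/-- The size of a product. -/
theorem m3_bd {a b : F} (ha : Valued.v a ≤ 1) (hb : Valued.v b ≤ 1) {γ δ : WithZero (Multiplicative ℤ)}
    {u v : Fin 3 → F} (hu : Bd γ u) (hv : Bd δ v) : Bd (γ * δ) (m3 a b u v) := by
  have h : ∀ i j, Valued.v (u i * v j) ≤ γ * δ := by
    intro i j
    rw [map_mul]
    exact mul_le_mul' (hu i) (hv j)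
  have ha' : ∀ x : F, Valued.v x ≤ γ * δ → Valued.v (a * x) ≤ γ * δ := by
    intro x hx
    rw [map_mul]
    exact (mul_le_mul' ha hx).trans_eq (one_mul _)
  have hb' : ∀ x : F, Valued.v x ≤ γ * δ → Valued.v (b * x) ≤ γ * δ := by
    intro x hx
    rw [map_mul]
    exact (mul_le_mul' hb hx).trans_eq (one_mul _)
  have h12 : Valued.v (u 1 * v 2 + u 2 * v 1) ≤ γ * δ := Valuation.map_add_le _ (h 1 2) (h 2 1)
  intro j
  fin_cases j
  · exact Valuation.map_sub_le _ (h 0 0) (hb' _ h12)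
  · exact Valuation.map_sub_le _ (Valuation.map_sub_le _ (Valuation.map_add_le _ (h 0 1) (h 1 0))
      (ha' _ h12)) (hb' _ (h 2 2))
  · exact Valuation.map_sub_le _ (Valuation.map_add_le _ (Valuation.map_add_le _ (h 0 2) (h 1 1))
      (h 2 0)) (ha' _ (h 2 2))

theorem bd_sub {γ : WithZero (Multiplicative ℤ)} {u v : Fin 3 → F} (hu : Bd γ u) (hv : Bd γ v) :
    Bd γ (fun j => u j - v j) := fun j => Valuation.map_sub_le _ (hu j) (hv j)

theorem bd_add {γ : WithZero (Multiplicative ℤ)} {u v : Fin 3 → F} (hu : Bd γ u) (hv : Bd γ v) :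
    Bd γ (fun j => u j + v j) := fun j => Valuation.map_add_le _ (hu j) (hv j)

end Val

section Alg2

variable {F : Type*} [Field F] {a b : F}

theorem m3_comm (u v : Fin 3 → F) : m3 a b u v = m3 a b v u := by
  funext j
  fin_cases j <;> simp [m3] <;> ring

theorem m3_assoc (u v w : Fin 3 → F) : m3 a b (m3 a b u v) w = m3 a b u (m3 a b v w) := by
  funext j
  fin_cases j <;> simp [m3] <;> ring

theorem m3_cst (c : F) (u : Fin 3 → F) (j : Fin 3) : m3 a b (cst c) u j = c * u j := by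
  fin_cases j <;> simp [m3, cst]

theorem m3_one (u : Fin 3 → F) : m3 a b (cst 1) u = u := by
  funext j
  rw [m3_cst, one_mul]

theorem m3_smul (c : F) (u v : Fin 3 → F) :
    m3 a b (fun j => c * u j) v = fun j => c * m3 a b u v j := by
  funext j
  fin_cases j <;> simp [m3] <;> ring

theorem m3_add (u v w : Fin 3 → F) :
    m3 a b (fun j => u j + v j) w = fun j => m3 a b u w j + m3 a b v w j := by
  funext j
  fin_cases j <;> simp [m3] <;> ring

theorem m3_sub (u v w : Fin 3 → F) :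
    m3 a b (fun j => u j - v j) w = fun j => m3 a b u w j - m3 a b v w j := by
  funext j
  fin_cases j <;> simp [m3] <;> ring

/-- An element with norm not zero is invertible. -/
theorem m3_inv {z : Fin 3 → F} (hz : Te_nf a b z ≠ 0) : ∃ w : Fin 3 → F, m3 a b z w = cst 1 := by
  refine ⟨fun j => (Te_nf a b z)⁻¹ * Te_C a b z j, ?_⟩
  rw [m3_comm, m3_smul, m3_comm, Te_m3_adj]
  funext j
  fin_cases j
  · exact inv_mul_cancel₀ hz
  · exact mul_zero _
  · exact mul_zero _

theorem nf_xT (x : F) : Te_nf a b (xT x) = x ^ 3 + a * x + b := by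
  simp [Te_nf, xT]
  ring

theorem nf_cst (x : F) : Te_nf a b (cst x) = x ^ 3 := by
  simp [Te_nf, cst]
  ring

end Alg2

end H36LG
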