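import Pool.Agent.H36.LG.Df

/-!
ROW Fx (project MP_78d38b_LG, about 130 lines): a fixed point of a contraction over a complete valued field, in coordinates.

PROOF. Model: `exists_sq_add_self` in Pool/Agent/H10/GrHen.lean. `Y 0 = 0`, `Y (n + 1) = G (Y n)`. Induction: `|Y n| ≤ ρ` (all coordinates; `|G Y j| ≤ max |G Y j - G 0 j| |G 0 j| ≤ max (γ ρ) ρ = ρ`, by hG with `Z = 0`, `δ = ρ`) and
`|Y (n+1) j - Y n j| ≤ γ ^ n * ρ` (hG with `δ = γ ^ (n-1) ρ`). Hence `|Y (n+k) j - Y n j| ≤ γ ^ n * ρ`. `γ < 1` gives `γ ≤ exp (-1)` (`Pool.Agent.H10.lt_one_le_exp`), so `γ ^ n ρ ≤ exp (-n) ρ` is smaller than any given non-zero value for `n` large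
(`exists_exp_neg_natCast_lt`, or `exists_pow_lt₀`): every coordinate is a Cauchy sequence and has a limit `Y j`. For a limit `t` of `t_m` with `|t_m - c| ≤ δ` eventually: `|t - c| ≤ δ` (if `|t - c| > δ` then for `m` large `|t_m - t| < |t - c|` and
`|t_m - c| = |t - c| > δ`; use `Te_nhd` or `Valued.locally_const`). So `|Y j| ≤ ρ` and `|Y j - Y n j| ≤ γ ^ n ρ`, `|G Y j - Y (n+1) j| ≤ γ ^ (n+1) ρ` (hG), `|G Y j - Y j| ≤ γ ^ (n+1) ρ` for all `n`, so it is `0`.
-/

set_option autoImplicit false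
set_option linter.unusedSectionVars false
open scoped Classical

open WithZero NumberField IsDedekindDomain H76PP H36CY Topology Filter

namespace H36LG

theorem Fx_pow_small {γ ρ x : WithZero (Multiplicative ℤ)} (hγ : γ < 1) (hx : x ≠ 0) :
    ∃ N : ℕ, ∀ n, N ≤ n → γ ^ n * ρ < x := by
  by_cases hρ : ρ = 0
  · exact ⟨0, fun n _ => by rw [hρ, mul_zero]; exact zero_lt_iff.mpr hx⟩
  · have hx' : x / ρ ≠ 0 := div_ne_zero hx hρ
    obtain ⟨N, hN⟩ := exists_exp_neg_natCast_lt hx'
    refine ⟨N, fun n hn => ?_⟩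
    have h1 : γ ^ n ≤ exp (-(N : ℤ)) := by
      calc γ ^ n ≤ γ ^ N := pow_le_pow_right_of_le_one' hγ.le hn
        _ ≤ (exp (-1 : ℤ)) ^ N := pow_le_pow_left' (Pool.Agent.H10.lt_one_le_exp hγ) N
        _ = exp (-(N : ℤ)) := by
            rw [← exp_nsmul]
            congr 1
            simp
    have h2 : γ ^ n < x / ρ := lt_of_le_of_lt h1 hN
    rwa [lt_div_iff₀ (zero_lt_iff.mpr hρ)] at h2

theorem Fx_lim_le {F : Type*} [Field F] [Valued F (WithZero (Multiplicative ℤ))] {t : ℕ → F}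
    {l c : F} {δ : WithZero (Multiplicative ℤ)} (ht : Tendsto t atTop (𝓝 l)) {N : ℕ}
    (h : ∀ m, N ≤ m → Valued.v (t m - c) ≤ δ) : Valued.v (l - c) ≤ δ := by
  by_contra hcon
  have hlt := not_le.1 hcon
  have hne : l - c ≠ 0 := by
    intro h0
    rw [h0, map_zero] at hlt
    exact not_lt_zero hlt
  have h1 := ht.eventually (Te_nhd l hne)
  obtain ⟨m, hm1, hm2⟩ := (h1.and (eventually_ge_atTop N)).exists
  have hm1' : Valued.v (t m - l) < Valued.v (l - c) := hm1
  have h2 : Valued.v (t m - c) = Valued.v (l - c) := by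
    have e : t m - c = (l - c) + (t m - l) := by ring
    rw [e]
    exact Valuation.map_add_eq_of_lt_left _ hm1'
  exact absurd (h m hm2) (not_le.2 (h2 ▸ hlt))

theorem fix_pt {F : Type*} [Field F] [Valued F (WithZero (Multiplicative ℤ))] [CompleteSpace F]
    {ι : Type} [Finite ι] (G : (ι → F) → ι → F) {ρ γ : WithZero (Multiplicative ℤ)} (hγ : γ < 1)
    (h0 : ∀ j, Valued.v (G 0 j) ≤ ρ)
    (hG : ∀ Y Z : ι → F, (∀ j, Valued.v (Y j) ≤ ρ) → (∀ j, Valued.v (Z j) ≤ ρ) →
      ∀ δ : WithZero (Multiplicative ℤ), (∀ j, Valued.v (Y j - Z j) ≤ δ) →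
        ∀ j, Valued.v (G Y j - G Z j) ≤ γ * δ) :
    ∃ Y : ι → F, (∀ j, Valued.v (Y j) ≤ ρ) ∧ G Y = Y := by
  let S : ℕ → ι → F := fun n => G^[n] 0
  have hS0 : S 0 = 0 := rfl
  have hS1 : ∀ n, S (n + 1) = G (S n) := fun n => Function.iterate_succ_apply' G n 0
  have hz : ∀ j, Valued.v ((0 : ι → F) j) ≤ ρ := fun j => by
    rw [Pi.zero_apply, map_zero]; exact zero_le
  have hγρ : γ * ρ ≤ ρ := by
    calc γ * ρ ≤ 1 * ρ := mul_le_mul' hγ.le le_rfl
      _ = ρ := one_mul _
  have hball : ∀ n j, Valued.v (S n j) ≤ ρ := by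
    intro n
    induction n with
    | zero => intro j; rw [hS0]; exact hz j
    | succ n ih =>
      intro j
      rw [hS1]
      have e : G (S n) j = (G (S n) j - G 0 j) + G 0 j := by ring
      rw [e]
      refine (Valuation.map_add _ _ _).trans (max_le ?_ (h0 j))
      refine (hG (S n) 0 ih hz ρ (fun i => ?_) j).trans hγρ
      rw [Pi.zero_apply, sub_zero]
      exact ih i
  have hstep : ∀ n j, Valued.v (S (n + 1) j - S n j) ≤ γ ^ n * ρ := by
    intro n
    induction n with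
    | zero =>
      intro j
      rw [hS0, pow_zero, one_mul, Pi.zero_apply, sub_zero]
      exact hball 1 j
    | succ n ih =>
      intro j
      rw [hS1 (n + 1), hS1 n]
      rw [hS1 n] at ih
      have h1 := hG (G (S n)) (S n) (fun i => by rw [← hS1]; exact hball _ i) (hball n) _ ih j
      rw [pow_succ', mul_assoc]
      exact h1
  have hfar : ∀ n k j, Valued.v (S (n + k) j - S n j) ≤ γ ^ n * ρ := by
    intro n k
    induction k with
    | zero => intro j; rw [add_zero, sub_self, map_zero]; exact zero_le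
    | succ k ih =>
      intro j
      have e : S (n + (k + 1)) j - S n j = (S (n + k + 1) j - S (n + k) j) +
          (S (n + k) j - S n j) := by
        rw [← add_assoc]; ring
      rw [e]
      refine (Valuation.map_add _ _ _).trans (max_le ((hstep (n + k) j).trans ?_) (ih j))
      exact mul_le_mul' (pow_le_pow_right_of_le_one' hγ.le (Nat.le_add_right _ _)) le_rfl
  have hcau : ∀ j, CauchySeq (fun n => S n j) := by
    intro j
    rw [CauchySeq, Valued.cauchy_iff]
    refine ⟨inferInstance, fun g => ?_⟩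
    obtain ⟨N, hN⟩ := Fx_pow_small (ρ := ρ) hγ
      (x := MonoidWithZeroHom.ValueGroup₀.embedding g.1) (by simp)
    refine ⟨(fun n => S n j) '' Set.Ici N, Filter.image_mem_map (Filter.Ici_mem_atTop N), ?_⟩
    rintro _ ⟨m, hm, rfl⟩ _ ⟨n, hn, rfl⟩
    rw [Valuation.restrict_lt_iff_lt_embedding]
    refine lt_of_le_of_lt ?_ (hN N le_rfl)
    have h1 := hfar N (m - N) j
    have h2 := hfar N (n - N) j
    rw [Nat.add_sub_cancel' hm] at h1
    rw [Nat.add_sub_cancel' hn] at h2
    have e : S n j - S m j = (S n j - S N j) - (S m j - S N j) := by ring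
    show Valued.v (S n j - S m j) ≤ _
    rw [e]
    exact (Valuation.map_sub _ _ _).trans (max_le h2 h1)
  choose Y hY using fun j => cauchySeq_tendsto_of_complete (hcau j)
  have hYball : ∀ j, Valued.v (Y j) ≤ ρ := by
    intro j
    have h1 := Fx_lim_le (hY j) (c := 0) (N := 0) (δ := ρ) (fun m _ => by
      rw [sub_zero]; exact hball m j)
    rwa [sub_zero] at h1
  have hYn : ∀ n j, Valued.v (Y j - S n j) ≤ γ ^ n * ρ := by
    intro n j
    refine Fx_lim_le (hY j) (N := n) (fun m hm => ?_)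
    have h1 := hfar n (m - n) j
    rwa [Nat.add_sub_cancel' hm] at h1
  refine ⟨Y, hYball, ?_⟩
  funext j
  have hsmall : ∀ n, Valued.v (G Y j - Y j) ≤ γ ^ n * ρ := by
    intro n
    have h1 := hG Y (S n) hYball (hball n) _ (hYn n) j
    have h2 := hYn (n + 1) j
    rw [hS1] at h2
    have h3 : γ * (γ ^ n * ρ) ≤ γ ^ n * ρ := by
      calc γ * (γ ^ n * ρ) ≤ 1 * (γ ^ n * ρ) := mul_le_mul' hγ.le le_rfl
        _ = _ := one_mul _
    have h4 : γ ^ (n + 1) * ρ ≤ γ ^ n * ρ := by
      rw [pow_succ', mul_assoc]; exact h3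
    have e : G Y j - Y j = (G Y j - G (S n) j) - (Y j - G (S n) j) := by ring
    rw [e]
    exact (Valuation.map_sub _ _ _).trans (max_le (h1.trans h3) (h2.trans h4))
  by_contra hne
  have hne' : Valued.v (G Y j - Y j) ≠ 0 := by
    rw [Valuation.ne_zero_iff]
    exact sub_ne_zero.2 hne
  obtain ⟨N, hN⟩ := Fx_pow_small (ρ := ρ) hγ hne'
  exact absurd (hsmall N) (not_le.2 (hN N le_rfl))

end H36LG
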