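import Pool.Agent.H36.LG.Fx

/-!
ROW Qr (project MP_78d38b_LG, about 90 lines): square roots in the algebra `F[T] / (T^3 + a T + b)`. Use only the STATEMENTS of the imports.

PROOF: `c j = (z j - cst 1 j) / 4`, `|c j| ≤ ρ < 1` with `ρ = exp (-1)` (`Pool.Agent.H10.lt_one_le_exp`). `fix_pt` with `ι = Fin 3`, `G t = c - m3 a b t t`, `γ = ρ`: `G t - G s = -m3 a b (t - s) (t + s)` coordinatewise (`m3_sub`, `m3_comm` or
`fin_cases j; simp [m3]; ring`) and `m3_bd`, `bd_add`, `m3_bd` with `γ = δ`, `δ = ρ`. So `t` with `t + m3 a b t t = c`; the square root is `s j = cst 1 j + 2 t j`: `m3 a b s s j = cst 1 j + 4 t j + 4 m3 a b t t j = cst 1 j + 4 c j = z j`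
(`fin_cases j; simp [m3, cst]; ring`-like, or first prove `m3 a b s s j = cst 1 j + 4 * t j + 4 * m3 a b t t j` by `fin_cases j <;> simp [m3, cst] <;> ring`).
-/

set_option autoImplicit false
set_option linter.unusedSectionVars false
open scoped Classical

open WithZero NumberField IsDedekindDomain H76PP H36CY

namespace H36LG

variable {F : Type*} [Field F] [Valued F (WithZero (Multiplicative ℤ))]

theorem sqrt3 [CompleteSpace F] {a b : F} (ha : Valued.v a ≤ 1) (hb : Valued.v b ≤ 1)
    (h2 : (2 : F) ≠ 0) {z : Fin 3 → F} (hz : ∀ j, Valued.v (z j - cst 1 j) < Valued.v (4 : F)) :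
    ∃ s : Fin 3 → F, m3 a b s s = z := by
  have h4 : (4 : F) ≠ 0 := by
    have : (4 : F) = 2 * 2 := by norm_num
    rw [this]
    exact mul_ne_zero h2 h2
  have hv4 : Valued.v (4 : F) ≠ 0 := (Valuation.ne_zero_iff _).2 h4
  set c : Fin 3 → F := fun j => (z j - cst 1 j) / 4 with hc
  have hcb : Bd (exp (-1 : ℤ)) c := by
    intro j
    apply Pool.Agent.H10.lt_one_le_exp
    rw [hc]
    simp only
    rw [map_div₀]
    exact (div_lt_one₀ (zero_lt_iff.2 hv4)).2 (hz j)
  have hlt : (exp (-1 : ℤ)) < (1 : WithZero (Multiplicative ℤ)) := by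
    rw [← exp_zero]
    exact exp_lt_exp.2 (by norm_num)
  obtain ⟨t, ht, hG⟩ := fix_pt (F := F) (ι := Fin 3) (fun t j => c j - m3 a b t t j)
    (ρ := exp (-1 : ℤ)) (γ := exp (-1 : ℤ)) hlt
    (by
      intro j
      have : m3 a b (0 : Fin 3 → F) 0 j = 0 := by fin_cases j <;> simp [m3]
      simp only [this, sub_zero]
      exact hcb j)
    (by
      intro Y Z hY hZ δ hδ j
      have h1 : (c j - m3 a b Y Y j) - (c j - m3 a b Z Z j)
          = - m3 a b (fun j => Y j + Z j) (fun j => Y j - Z j) j := by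
        fin_cases j <;> simp [m3] <;> ring
      simp only [h1]
      rw [Valuation.map_neg]
      exact m3_bd ha hb (bd_add hY hZ) hδ j)
  refine ⟨fun j => cst 1 j + 2 * t j, ?_⟩
  funext j
  have h1 : m3 a b (fun j => cst 1 j + 2 * t j) (fun j => cst 1 j + 2 * t j) j
      = cst 1 j + 4 * t j + 4 * m3 a b t t j := by
    fin_cases j <;> simp [m3, cst] <;> ring
  rw [h1]
  have h3 := congrFun hG j
  simp only [hc] at h3
  field_simp at h3
  linear_combination -h3

end H36LG
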