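import Pool.Agent.H36.LG.Ph
import Pool.Agent.H36.LG.Qr

/-!
ROW Gn (project MP_78d38b_LG, about 150 lines): replacing `τ` by an approximation changes `ph τ d` by a square. Use only the STATEMENTS of the imports.

PROOF of nf_near: `Te_nf a b z` is a polynomial in `z 0, z 1, z 2` with integral coefficients (`|a|, |b| ≤ 1`) and its only monomial without `z 1`, `z 2` is `z 0 ^ 3`; `|z 1|, |z 2| < 1`, `|z 0 - 1| < 1`, so `|Te_nf a b z - 1| < 1`.

PROOF of ph_near. `w = ph a b τ d`, `Te_nf a b w = Te_nf A B d ≠ 0` (`ph_nf h.rt (det_ne h)`), so `w'` with `m3 a b w w' = cst 1` (`m3_inv`). Let `g ∈ F` be one of `1, d 0, d 1, d 2, w' 0, w' 1, w' 2` of largest valuation (`|g| ≥ 1`), `c = 4 / g^2`. Let `|τ1 j - τ j| < |c|` for all `j`, `γ` = max of the three, `γ < |c| ≤ 1`. `|τ j| ≤ 1` (h.nr), so `|τ1 j| ≤ 1`.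
`ph a b τ1 d - ph a b τ d = d 1 (τ1 - τ) + d 2 (m3 a b (τ1 - τ) (τ1 + τ))` (coordinatewise, `fin_cases j <;> simp [ph, m3, cst] <;> ring`) is bounded by `|g| γ` (`m3_bd`). So `y = m3 a b w' (ph a b τ1 d)` has `|y j - cst 1 j| ≤ |g|^2 γ < |g|^2 |c| = |4|`. `sqrt3`: `y = m3 a b t t`; `Te_nf a b t ≠ 0` by nf_near for `y`
and `Te_nf_mul`. `ph a b τ1 d = w w' (ph a b τ1 d) = w (t t)`.
-/

set_option autoImplicit false
set_option linter.unusedSectionVars false
open scoped Classical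

open WithZero NumberField IsDedekindDomain H76PP H36CY

namespace H36LG

variable {F : Type*} [Field F] [Valued F (WithZero (Multiplicative ℤ))] {ϖ a b A B : F}
  {τ : Fin 3 → F}

theorem Gn_max (x y : F) : ∃ g : F, Valued.v x ≤ Valued.v g ∧ Valued.v y ≤ Valued.v g := by
  rcases le_total (Valued.v x) (Valued.v y) with h | h
  · exact ⟨y, h, le_rfl⟩
  · exact ⟨x, le_rfl, h⟩

theorem Gn_ml {x y : F} (hx : Valued.v x < 1) (hy : Valued.v y ≤ 1) : Valued.v (x * y) < 1 := by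
  rw [map_mul]
  exact (mul_le_mul_right hy _).trans_lt (by rw [mul_one]; exact hx)

theorem nf_near (ha : Valued.v a ≤ 1) (hb : Valued.v b ≤ 1) {z : Fin 3 → F}
    (hz : ∀ j, Valued.v (z j - cst 1 j) < 1) : Te_nf a b z ≠ 0 := by
  have h0 : Valued.v (z 0 - 1) < 1 := hz 0
  have h1 : Valued.v (z 1) < 1 := by
    have := hz 1
    rwa [show cst (1 : F) 1 = 0 from rfl, sub_zero] at this
  have h2 : Valued.v (z 2) < 1 := by
    have := hz 2
    rwa [show cst (1 : F) 2 = 0 from rfl, sub_zero] at this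
  have h0' : Valued.v (z 0) ≤ 1 := by
    have : z 0 = (z 0 - 1) + 1 := by ring
    rw [this]
    exact Valuation.map_add_le _ h0.le (le_of_eq (map_one _))
  let O : Subring F := (Valued.v : Valuation F (WithZero (Multiplicative ℤ))).integer
  have key : ∀ a' b' x y w : O, Valued.v (-(2 * (a' : F) * x ^ 2) + a' ^ 2 * x * w + 3 * b' * x * y + b' ^ 2 * w ^ 2 - a' * b' * y * w) ≤ 1 ∧
      Valued.v ((a' : F) * x * y - b' * y ^ 2) ≤ 1 ∧ Valued.v ((x : F) ^ 2 + x + 1) ≤ 1 := by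
    intro a' b' x y w
    refine ⟨?_, ?_, ?_⟩
    · have := (-(2 * a' * x ^ 2) + a' ^ 2 * x * w + 3 * b' * x * y + b' ^ 2 * w ^ 2 - a' * b' * y * w : O).2
      push_cast at this
      exact this
    · have := (a' * x * y - b' * y ^ 2 : O).2
      push_cast at this
      exact this
    · have := (x ^ 2 + x + 1 : O).2
      push_cast at this
      exact this
  obtain ⟨k2, k1, k0⟩ := key ⟨a, ha⟩ ⟨b, hb⟩ ⟨z 0, h0'⟩ ⟨z 1, h1.le⟩ ⟨z 2, h2.le⟩
  have e : Te_nf a b z - 1 = (z 0 - 1) * (z 0 ^ 2 + z 0 + 1) + z 1 * (a * z 0 * z 1 - b * z 1 ^ 2) +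
      z 2 * (-(2 * a * z 0 ^ 2) + a ^ 2 * z 0 * z 2 + 3 * b * z 0 * z 1 + b ^ 2 * z 2 ^ 2 - a * b * z 1 * z 2) := by
    unfold Te_nf
    ring
  have h3 : Valued.v (Te_nf a b z - 1) < 1 := by
    rw [e]
    exact Valuation.map_add_lt _ (Valuation.map_add_lt _ (Gn_ml h0 k0) (Gn_ml h1 k1)) (Gn_ml h2 k2)
  intro h
  rw [h, zero_sub, Valuation.map_neg, map_one] at h3
  exact lt_irrefl _ h3

theorem Gn_bd {g : F} {γ : WithZero (Multiplicative ℤ)} {τ1 d : Fin 3 → F} (ha : Valued.v a ≤ 1) (hb : Valued.v b ≤ 1)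
    (h1 : Valued.v (d 1) ≤ Valued.v g) (h2 : Valued.v (d 2) ≤ Valued.v g) (ht : Bd 1 τ) (ht1 : Bd 1 τ1)
    (hd : Bd γ (fun j => τ1 j - τ j)) : Bd (Valued.v g * γ) (fun j => ph a b τ1 d j - ph a b τ d j) := by
  have e : ∀ j, ph a b τ1 d j - ph a b τ d j =
      d 1 * (τ1 j - τ j) + d 2 * m3 a b (fun j => τ1 j - τ j) (fun j => τ1 j + τ j) j := by
    intro j
    fin_cases j <;> simp [ph, m3, cst] <;> ring
  have hm : Bd (γ * 1) (m3 a b (fun j => τ1 j - τ j) (fun j => τ1 j + τ j)) := m3_bd ha hb hd (bd_add ht1 ht)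
  rw [mul_one] at hm
  intro j
  show Valued.v (ph a b τ1 d j - ph a b τ d j) ≤ _
  rw [e]
  refine Valuation.map_add_le _ ?_ ?_
  · rw [map_mul]
    exact mul_le_mul' h1 (hd j)
  · rw [map_mul]
    exact mul_le_mul' h2 (hm j)

theorem ph_near [CompleteSpace F] [CharZero F] (h : Near ϖ a b A B τ) {d : Fin 3 → F}
    (hd : Te_nf A B d ≠ 0) :
    ∃ c : F, c ≠ 0 ∧ ∀ τ1 : Fin 3 → F, (∀ j, Valued.v (τ1 j - τ j) < Valued.v c) →
      ∃ t : Fin 3 → F, Te_nf a b t ≠ 0 ∧ ph a b τ1 d = m3 a b (ph a b τ d) (m3 a b t t) := by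
  have hw : Te_nf a b (ph a b τ d) ≠ 0 := by rw [ph_nf h.rt (det_ne h)]; exact hd
  obtain ⟨w', hw'⟩ := m3_inv hw
  obtain ⟨g1, p1, p2⟩ := Gn_max (1 : F) (d 1)
  obtain ⟨g2, q1, q2⟩ := Gn_max g1 (d 2)
  obtain ⟨g3, r1, r2⟩ := Gn_max g2 (w' 0)
  obtain ⟨g4, s1, s2⟩ := Gn_max g3 (w' 1)
  obtain ⟨g, t1, t2⟩ := Gn_max g4 (w' 2)
  have hg3 := s1.trans t1
  have hg2 := r1.trans hg3
  have hg1 := q1.trans hg2
  have g1' : 1 ≤ Valued.v g := by
    have := p1.trans hg1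
    rwa [map_one] at this
  have gd1 : Valued.v (d 1) ≤ Valued.v g := p2.trans hg1
  have gd2 : Valued.v (d 2) ≤ Valued.v g := q2.trans hg2
  have gw : Bd (Valued.v g) w' := by
    intro j
    fin_cases j
    · exact r2.trans hg3
    · exact s2.trans t1
    · exact t2
  have gpos : 0 < Valued.v g := lt_of_lt_of_le zero_lt_one g1'
  have g0 : g ≠ 0 := fun h0 => by rw [h0, map_zero] at gpos; exact lt_irrefl _ gpos
  have four : (4 : F) ≠ 0 := by norm_num
  have two : (2 : F) ≠ 0 := by norm_num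
  refine ⟨4 / (g * g), div_ne_zero four (mul_ne_zero g0 g0), ?_⟩
  intro τ1 hτ1
  have hc1 : Valued.v (4 / (g * g)) ≤ 1 := by
    rw [map_div₀, map_mul]
    exact div_le_one_of_le₀ ((v_ofNat 4).trans (one_le_mul g1' g1')) zero_le
  have hτ : Bd 1 τ := by
    intro j
    have e : τ j = (τ j - TT j) + TT j := by ring
    rw [e]
    refine Valuation.map_add_le _ ?_ ?_
    · refine (h.nr j).le.trans ?_
      rw [map_mul, map_pow, map_pow]
      exact mul_le_one' (pow_le_one' h.w1.le 2) (pow_le_one' (v_dl h.ia h.ib) 3)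
    · fin_cases j
      · show Valued.v (0 : F) ≤ 1
        rw [map_zero]; exact zero_le
      · show Valued.v (1 : F) ≤ 1
        rw [map_one]
      · show Valued.v (0 : F) ≤ 1
        rw [map_zero]; exact zero_le
  have hτ1' : Bd 1 τ1 := by
    intro j
    have e : τ1 j = (τ1 j - τ j) + τ j := by ring
    rw [e]
    exact Valuation.map_add_le _ ((hτ1 j).le.trans hc1) (hτ j)
  obtain ⟨γ, hγ, hγ'⟩ : ∃ γ : WithZero (Multiplicative ℤ), γ < Valued.v (4 / (g * g)) ∧ Bd γ (fun j => τ1 j - τ j) := by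
    refine ⟨max (max (Valued.v (τ1 0 - τ 0)) (Valued.v (τ1 1 - τ 1))) (Valued.v (τ1 2 - τ 2)),
      max_lt (max_lt (hτ1 0) (hτ1 1)) (hτ1 2), ?_⟩
    intro j
    fin_cases j
    · exact (le_max_left _ _).trans (le_max_left _ _)
    · exact (le_max_right _ _).trans (le_max_left _ _)
    · exact le_max_right _ _
  have hb1 := Gn_bd h.ia h.ib gd1 gd2 hτ hτ1' hγ'
  have hb2 := m3_bd h.ia h.ib gw hb1
  have hyw : m3 a b w' (ph a b τ d) = cst 1 := by rw [m3_comm]; exact hw'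
  have hlt : Valued.v g * (Valued.v g * γ) < Valued.v (4 : F) := by
    have e : Valued.v (4 : F) = Valued.v g * (Valued.v g * Valued.v (4 / (g * g))) := by
      rw [← map_mul, ← map_mul]
      congr 1
      field_simp
    rw [e]
    exact mul_lt_mul_of_pos_left (mul_lt_mul_of_pos_left hγ gpos) gpos
  have hz : ∀ j, Valued.v (m3 a b w' (ph a b τ1 d) j - cst 1 j) < Valued.v (4 : F) := by
    intro j
    have e : m3 a b w' (ph a b τ1 d) j - cst 1 j = m3 a b w' (fun j => ph a b τ1 d j - ph a b τ d j) j := by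
      rw [m3_comm w' (fun j => ph a b τ1 d j - ph a b τ d j), m3_sub, m3_comm _ w', m3_comm _ w', hyw]
    rw [e]
    exact (hb2 j).trans_lt hlt
  obtain ⟨t, ht⟩ := sqrt3 h.ia h.ib two hz
  refine ⟨t, ?_, ?_⟩
  · have hn := nf_near h.ia h.ib (z := m3 a b w' (ph a b τ1 d)) (fun j => (hz j).trans_le (v_ofNat 4))
    rw [← ht, Te_nf_mul] at hn
    exact left_ne_zero_of_mul hn
  · rw [ht, ← m3_assoc, hw', m3_one]

end H36LG
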