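import Pool.Agent.H36.LG.Fn
import Pool.Agent.H30.CY.Inf

/-!
The local-global principle: the local condition above two implies a positive proportion (project
MP_78d38b_LG, no row; assembly).
-/

set_option autoImplicit false
set_option linter.unusedSectionVars false
open scoped Classical

open WithZero NumberField IsDedekindDomain H38RT H76PP H36CY

namespace H36LG

/-- The local condition at the prime `v` of `K` for the extension `F / K`. -/
def LocOK (K F : Type) [Field K] [NumberField K] [Field F] [Algebra K F]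
    (v : HeightOneSpectrum (𝓞 K)) : Prop :=
  ∃ a b : 𝓞 K, dsc a b ≠ 0 ∧ ∀ (N : IntermediateField K F) [NumberField N], IsGalois K N →
    DescAt K N v (a : K) (b : K)

theorem main_lgp (K F : Type) [Field K] [NumberField K] [Field F] [Algebra K F] [IsGalois K F]
    (hdeg : ∀ (N : IntermediateField K F) [NumberField N], IsGalois K N →
      ∃ r : ℕ, Module.finrank K N = 2 ^ r)
    (hram : {v : HeightOneSpectrum (𝓞 K) | ∃ (N : IntermediateField K F) (_ : NumberField N)
      (V : HeightOneSpectrum (𝓞 N)), dn K V = v ∧ H73P2.Ram K V}.Finite)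
    (hspl : {v : HeightOneSpectrum (𝓞 K) | ∃ ι : F →+* v.adicCompletion K, ∀ x : K,
      ι (algebraMap K F x) = algebraMap K (v.adicCompletion K) x}.Infinite)
    (hloc : ∀ v : HeightOneSpectrum (𝓞 K), (2 : 𝓞 K) ∈ v.asIdeal → LocOK K F v) :
    ∃ (c X₀ : ℝ), 0 < c ∧ ∀ X : ℝ, X₀ ≤ X → ∃ G : Finset (𝓞 K × 𝓞 K),
      (∀ p ∈ G, p ∈ Bx K X ∧ 4 * p.1 ^ 3 + 27 * p.2 ^ 2 ≠ 0 ∧
        Finite (⟨0, 0, 0, algebraMap K F p.1, algebraMap K F p.2⟩ :
          WeierstrassCurve F).toAffine.Point ∧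
        ∀ (M : IntermediateField K F) [NumberField M],
          Finite (⟨0, 0, 0, algebraMap K M p.1, algebraMap K M p.2⟩ :
            WeierstrassCurve M).toAffine.Point ∧
          Pool.Agent.H10.Sha2Trivial M
            (⟨0, 0, 0, algebraMap K M p.1, algebraMap K M p.2⟩ : WeierstrassCurve M)) ∧
      (∀ p ∈ G, ∀ q ∈ G, p.1 ^ 3 * q.2 ^ 2 = q.1 ^ 3 * p.2 ^ 2 → p = q) ∧
      c * ((Bx K X).ncard : ℝ) ≤ (G.card : ℝ) := by
  refine H30CY.main_inf_of K F hdeg hram hspl fun v hv => ?_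
  obtain ⟨a, b, hd, hab⟩ := hloc v hv
  obtain ⟨e, he, h⟩ := descAt_open v hd
  exact ⟨e, a, b, ⊥, inferInstance, he, fun A B hA hB N _ hN _ => h A B hA hB N (hab N hN)⟩

end H36LG
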