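import Pool.Agent.H36.LG.Df

/-!
ROW Ph (project MP_78d38b_LG, about 170 lines): the isomorphism `F[T] / (T^3 + A T + B) → F[T] / (T^3 + a T + b)`, `T ↦ τ`. Use only the STATEMENTS of the imports.

PROOF of ph_mul: `ph u * ph v` (product `m3 a b`) is `Σ u i v j τ^(i+j)`; by hr `τ^3 = -A τ - B`, so `τ^4 = -A τ^2 - B τ`. Concretely: let `q = m3 a b τ τ`, `c = m3 a b τ q`, `hr : c j = -(A τ j + cst B j)`. Expand with `m3_comm`, `m3_add`, `m3_smul`, `m3_one`, `m3_assoc`: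
`m3 (ph u) (ph v) = u0 v0 1 + (u0 v1 + u1 v0) τ + (u0 v2 + u1 v1 + u2 v0) q + (u1 v2 + u2 v1) c + u2 v2 (m3 τ c)`, `m3 τ c = -(A q + B τ)`. (This first expansion can be checked by `fin_cases j <;> simp [m3, ph, cst] <;> ring` with `τ 0, τ 1, τ 2` generalised.)

PROOF of det_ne: `τ = (η0, 1 + η1, η2)` with `|η j| < |16 Δ^3| ≤ 1` strictly less than one, so `|q 1|< 1` and `|q 2 - 1| < 1` for `q = m3 a b τ τ` (`q 1 = 2 τ0 τ1 - 2 a τ1 τ2 - b τ2^2`, `q 2 = 2 τ0 τ2 + τ1^2 - a τ2^2`), and `|τ1 q2 - τ2 q1 - 1| < 1`.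

PROOF of ph_inj, ph_surj: the matrix with columns `cst 1, τ, q` has determinant `D = τ1 q2 - τ2 q1 ≠ 0`. inj: from `ph u = ph v`: coordinates 1, 2 of the difference `w = u - v`: `w1 τ1 + w2 q1 = 0`, `w1 τ2 + w2 q2 = 0`, so `D w1 = 0 = D w2`, then `w0 = 0`.
surj: `c2 = (τ1 w2 - τ2 w1) / D`, `c1 = (q2 w1 - q1 w2) / D`, `c0 = w0 - c1 τ0 - c2 q0`.

PROOF of ph_nf: for `z` let `M a b z` be the matrix with columns `z, m3 a b z TT, m3 a b z ![0,0,1]`; `det (M a b z) = Te_nf a b z` (`Matrix.det_fin_three`, ring) and `M a b z *ᵥ w = m3 a b z w`. With `P` = matrix with columns `cst 1 = ph ![1,0,0]`, `τ = ph TT`, `q = ph ![0,0,1]` (so `P *ᵥ c = ph c`):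
`M a b (ph u) * P = P * M A B u`, since on the `j`-th basis vector both sides are `m3 a b (ph u) (ph e_j) = ph (m3 A B u e_j)`. Take determinants and cancel `det P = D ≠ 0`.
-/

set_option autoImplicit false
set_option linter.unusedSectionVars false
open scoped Classical

open WithZero NumberField IsDedekindDomain H76PP H36CY

namespace H36LG

section

variable {F : Type*} [Field F] {a b A B : F} {τ : Fin 3 → F}

theorem ph_mul (hr : Rt a b A B τ) (u v : Fin 3 → F) :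
    ph a b τ (m3 A B u v) = m3 a b (ph a b τ u) (ph a b τ v) := by
  have hq : ∀ j, m3 a b (ph a b τ u) (ph a b τ v) j = u 0 * v 0 * cst (1 : F) j +
      (u 0 * v 1 + u 1 * v 0) * τ j + (u 0 * v 2 + u 1 * v 1 + u 2 * v 0) * m3 a b τ τ j +
      (u 1 * v 2 + u 2 * v 1) * m3 a b τ (m3 a b τ τ) j +
      u 2 * v 2 * m3 a b τ (m3 a b τ (m3 a b τ τ)) j := by
    intro j
    fin_cases j
    · simp [m3, ph, cst]
      ring
    · simp [m3, ph, cst]
      ring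
    · simp [m3, ph, cst]
      ring
  have hc : m3 a b τ (m3 a b τ τ) = fun j => -(A * τ j + cst B j) := by
    funext j
    linear_combination hr j
  have hd : ∀ j, m3 a b τ (m3 a b τ (m3 a b τ τ)) j = -(A * m3 a b τ τ j + B * τ j) := by
    intro j
    rw [hc]
    fin_cases j
    · simp [m3, cst]
      ring
    · simp [m3, cst]
      ring
    · simp [m3, cst]
      ring
  funext j
  rw [hq, hd, hc]
  have hB : cst B j = B * cst (1 : F) j := by
    fin_cases j <;> simp [cst]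
  have e0 : m3 A B u v 0 = u 0 * v 0 - B * (u 1 * v 2 + u 2 * v 1) := rfl
  have e1 : m3 A B u v 1 = u 0 * v 1 + u 1 * v 0 - A * (u 1 * v 2 + u 2 * v 1) -
    B * (u 2 * v 2) := rfl
  have e2 : m3 A B u v 2 = u 0 * v 2 + u 1 * v 1 + u 2 * v 0 - A * (u 2 * v 2) := rfl
  show m3 A B u v 0 * cst (1 : F) j + m3 A B u v 1 * τ j + m3 A B u v 2 * m3 a b τ τ j =
    u 0 * v 0 * cst (1 : F) j + (u 0 * v 1 + u 1 * v 0) * τ j +
      (u 0 * v 2 + u 1 * v 1 + u 2 * v 0) * m3 a b τ τ j +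
      (u 1 * v 2 + u 2 * v 1) * (-(A * τ j + cst B j)) +
      u 2 * v 2 * -(A * m3 a b τ τ j + B * τ j)
  rw [e0, e1, e2, hB]
  ring

theorem ph_inj (hd : τ 1 * m3 a b τ τ 2 - τ 2 * m3 a b τ τ 1 ≠ 0) {u v : Fin 3 → F}
    (h : ph a b τ u = ph a b τ v) : u = v := by
  have h0 : u 0 * 1 + u 1 * τ 0 + u 2 * m3 a b τ τ 0 = v 0 * 1 + v 1 * τ 0 + v 2 * m3 a b τ τ 0 :=
    congrFun h 0
  have h1 : u 0 * 0 + u 1 * τ 1 + u 2 * m3 a b τ τ 1 = v 0 * 0 + v 1 * τ 1 + v 2 * m3 a b τ τ 1 :=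
    congrFun h 1
  have h2 : u 0 * 0 + u 1 * τ 2 + u 2 * m3 a b τ τ 2 = v 0 * 0 + v 1 * τ 2 + v 2 * m3 a b τ τ 2 :=
    congrFun h 2
  have w1 : u 1 = v 1 := by
    have : (τ 1 * m3 a b τ τ 2 - τ 2 * m3 a b τ τ 1) * (u 1 - v 1) = 0 := by
      linear_combination m3 a b τ τ 2 * h1 - m3 a b τ τ 1 * h2
    exact sub_eq_zero.1 ((mul_eq_zero.1 this).resolve_left hd)
  have w2 : u 2 = v 2 := by
    have : (τ 1 * m3 a b τ τ 2 - τ 2 * m3 a b τ τ 1) * (u 2 - v 2) = 0 := by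
      linear_combination τ 1 * h2 - τ 2 * h1
    exact sub_eq_zero.1 ((mul_eq_zero.1 this).resolve_left hd)
  have w0 : u 0 = v 0 := by
    rw [w1, w2] at h0
    linear_combination h0
  funext j
  fin_cases j
  · exact w0
  · exact w1
  · exact w2

theorem ph_surj (hd : τ 1 * m3 a b τ τ 2 - τ 2 * m3 a b τ τ 1 ≠ 0) (w : Fin 3 → F) :
    ∃ u : Fin 3 → F, ph a b τ u = w := by
  obtain ⟨D, hD⟩ : ∃ D, D = τ 1 * m3 a b τ τ 2 - τ 2 * m3 a b τ τ 1 := ⟨_, rfl⟩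
  rw [← hD] at hd
  obtain ⟨c1, hc1⟩ : ∃ c, c = (m3 a b τ τ 2 * w 1 - m3 a b τ τ 1 * w 2) / D := ⟨_, rfl⟩
  obtain ⟨c2, hc2⟩ : ∃ c, c = (τ 1 * w 2 - τ 2 * w 1) / D := ⟨_, rfl⟩
  have k1 : c1 * D = m3 a b τ τ 2 * w 1 - m3 a b τ τ 1 * w 2 := by
    rw [hc1, div_mul_cancel₀ _ hd]
  have k2 : c2 * D = τ 1 * w 2 - τ 2 * w 1 := by
    rw [hc2, div_mul_cancel₀ _ hd]
  refine ⟨![w 0 - c1 * τ 0 - c2 * m3 a b τ τ 0, c1, c2], ?_⟩
  funext j
  fin_cases j
  · show (w 0 - c1 * τ 0 - c2 * m3 a b τ τ 0) * 1 + c1 * τ 0 + c2 * m3 a b τ τ 0 = w 0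
    ring
  · show (w 0 - c1 * τ 0 - c2 * m3 a b τ τ 0) * 0 + c1 * τ 1 + c2 * m3 a b τ τ 1 = w 1
    apply mul_right_cancel₀ hd
    linear_combination τ 1 * k1 + m3 a b τ τ 1 * k2 - w 1 * hD
  · show (w 0 - c1 * τ 0 - c2 * m3 a b τ τ 0) * 0 + c1 * τ 2 + c2 * m3 a b τ τ 2 = w 2
    apply mul_right_cancel₀ hd
    linear_combination τ 2 * k1 + m3 a b τ τ 2 * k2 - w 2 * hD

theorem ph_nf (hr : Rt a b A B τ) (hd : τ 1 * m3 a b τ τ 2 - τ 2 * m3 a b τ τ 1 ≠ 0)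
    (u : Fin 3 → F) : Te_nf a b (ph a b τ u) = Te_nf A B u := by
  obtain ⟨e, he⟩ : ∃ e : Fin 3 → Fin 3 → F, e = ![![1, 0, 0], ![0, 1, 0], ![0, 0, 1]] := ⟨_, rfl⟩
  obtain ⟨P, hP⟩ : ∃ P : Matrix (Fin 3) (Fin 3) F,
    P = Matrix.of (fun i k => ph a b τ (e k) i) := ⟨_, rfl⟩
  have hPa : ∀ i k, P i k = ph a b τ (e k) i := by
    intro i k
    rw [hP, Matrix.of_apply]
  have hph : ∀ (c : Fin 3 → F) (i : Fin 3), ph a b τ c i = ∑ k, P i k * c k := by
    intro c i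
    rw [Fin.sum_univ_three, hPa, hPa, hPa, he]
    simp [ph]
    ring
  have hm : ∀ (x y : F) (z w : Fin 3 → F) (i : Fin 3),
      m3 x y z w i = ∑ k, m3 x y z (e k) i * w k := by
    intro x y z w i
    rw [Fin.sum_univ_three, he]
    fin_cases i
    · simp [m3]
      ring
    · simp [m3]
      ring
    · simp [m3]
      ring
  have hdet : ∀ (x y : F) (z : Fin 3 → F),
      (Matrix.of (fun i k => m3 x y z (e k) i)).det = Te_nf x y z := by
    intro x y z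
    rw [Matrix.det_fin_three, he]
    simp [m3, Te_nf]
    ring
  have hPd : P.det ≠ 0 := by
    have : P.det = τ 1 * m3 a b τ τ 2 - τ 2 * m3 a b τ τ 1 := by
      rw [Matrix.det_fin_three, hP, he]
      simp [ph, cst]
      ring
    rw [this]
    exact hd
  have hmul : Matrix.of (fun i k => m3 a b (ph a b τ u) (e k) i) * P =
      P * Matrix.of (fun i k => m3 A B u (e k) i) := by
    ext i j
    rw [Matrix.mul_apply, Matrix.mul_apply]
    simp only [Matrix.of_apply]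
    have h1 : ∑ k, P i k * m3 A B u (e j) k = ph a b τ (m3 A B u (e j)) i := (hph _ _).symm
    have h2 : ∑ k, m3 a b (ph a b τ u) (e k) i * P k j =
        m3 a b (ph a b τ u) (ph a b τ (e j)) i := by
      rw [hm a b (ph a b τ u) (ph a b τ (e j)) i]
      refine Finset.sum_congr rfl fun k _ => ?_
      rw [hPa]
    exact h2.trans ((congrFun (ph_mul hr u (e j)) i).symm.trans h1.symm)
  have h3 := congrArg Matrix.det hmul
  rw [Matrix.det_mul, Matrix.det_mul, hdet, hdet, mul_comm] at h3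
  exact mul_left_cancel₀ hPd h3

theorem ph_xT (x : F) : ph a b τ (xT x) = xt τ x := by
  funext j
  fin_cases j <;> simp [ph, xT, xt, cst]
  ring

theorem ph_cst (x : F) : ph a b τ (cst x) = cst x := by
  funext j
  fin_cases j <;> simp [ph, cst]

end

theorem det_ne {F : Type*} [Field F] [Valued F (WithZero (Multiplicative ℤ))] {ϖ a b A B : F}
    {τ : Fin 3 → F} (h : Near ϖ a b A B τ) : τ 1 * m3 a b τ τ 2 - τ 2 * m3 a b τ τ 1 ≠ 0 := by
  have h16 : Valued.v (ϖ ^ 2 * dl a b ^ 3) ≤ (1 : WithZero (Multiplicative ℤ)) := by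
    rw [map_mul, map_pow, map_pow]
    exact mul_le_one' (pow_le_one' h.w1.le 2) (pow_le_one' (v_dl h.ia h.ib) 3)
  have hnr : ∀ j, Valued.v (τ j - TT j) < (1 : WithZero (Multiplicative ℤ)) :=
    fun j => (h.nr j).trans_le h16
  have t0 : Valued.v (τ 0) < (1 : WithZero (Multiplicative ℤ)) := by
    have := hnr 0
    rwa [show (TT 0 : F) = 0 from rfl, sub_zero] at this
  have t2 : Valued.v (τ 2) < (1 : WithZero (Multiplicative ℤ)) := by
    have := hnr 2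
    rwa [show (TT 2 : F) = 0 from rfl, sub_zero] at this
  have t1 : Valued.v (τ 1 - 1) < (1 : WithZero (Multiplicative ℤ)) := hnr 1
  have t1' : Valued.v (τ 1) ≤ (1 : WithZero (Multiplicative ℤ)) := by
    rw [show τ 1 = (τ 1 - 1) + 1 by ring]
    exact Valuation.map_add_le _ t1.le (le_of_eq (map_one _))
  have hv2 : Valued.v (2 : F) ≤ (1 : WithZero (Multiplicative ℤ)) := v_ofNat 2
  have hmul : ∀ x y : F, Valued.v x ≤ (1 : WithZero (Multiplicative ℤ)) → Valued.v y ≤ 1 →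
      Valued.v (x * y) ≤ (1 : WithZero (Multiplicative ℤ)) := by
    intro x y hx hy
    rw [map_mul]
    exact mul_le_one' hx hy
  have hmul' : ∀ x y : F, Valued.v x < (1 : WithZero (Multiplicative ℤ)) → Valued.v y ≤ 1 →
      Valued.v (x * y) < (1 : WithZero (Multiplicative ℤ)) := by
    intro x y hx hy
    rw [map_mul]
    exact (mul_le_of_le_one_right' hy).trans_lt hx
  intro h0
  have hkey : (-1 : F) = (τ 1 - 1) * (τ 1 * τ 1 + τ 1 + 1) + τ 2 * (2 * (τ 0 * τ 1) -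
      a * (τ 1 * τ 2) - (2 * (τ 0 * τ 1) - 2 * (a * (τ 1 * τ 2)) - b * (τ 2 * τ 2))) := by
    have e1 : m3 a b τ τ 1 = τ 0 * τ 1 + τ 1 * τ 0 - a * (τ 1 * τ 2 + τ 2 * τ 1) -
      b * (τ 2 * τ 2) := rfl
    have e2 : m3 a b τ τ 2 = τ 0 * τ 2 + τ 1 * τ 1 + τ 2 * τ 0 - a * (τ 2 * τ 2) := rfl
    rw [e1, e2] at h0
    linear_combination -h0
  have hlt : Valued.v (-1 : F) < (1 : WithZero (Multiplicative ℤ)) := by
    rw [hkey]
    have p01 : Valued.v (2 * (τ 0 * τ 1)) ≤ (1 : WithZero (Multiplicative ℤ)) :=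
      hmul _ _ hv2 (hmul _ _ t0.le t1')
    have p12 : Valued.v (a * (τ 1 * τ 2)) ≤ (1 : WithZero (Multiplicative ℤ)) :=
      hmul _ _ h.ia (hmul _ _ t1' t2.le)
    have p22 : Valued.v (b * (τ 2 * τ 2)) ≤ (1 : WithZero (Multiplicative ℤ)) :=
      hmul _ _ h.ib (hmul _ _ t2.le t2.le)
    refine Valuation.map_add_lt _ (hmul' _ _ t1 ?_) (hmul' _ _ t2 ?_)
    · exact Valuation.map_add_le _ (Valuation.map_add_le _ (hmul _ _ t1' t1') t1')
        (le_of_eq (map_one _))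
    · exact Valuation.map_sub_le _ (Valuation.map_sub_le _ p01 p12)
        (Valuation.map_sub_le _ (Valuation.map_sub_le _ p01 (hmul _ _ hv2 p12)) p22)
  rw [Valuation.map_neg, map_one] at hlt
  exact lt_irrefl _ hlt

end H36LG
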