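import Pool.Agent.H36.LG.Sw
import Pool.Agent.H36.LG.Ph

/-!
ROW Lt (project MP_78d38b_LG, about 160 lines): the local conditions for `(A, B)` and `(a, b)` agree. Use only the STATEMENTS of the imports.

Notation: products `m3 (i a) (i b)`, `P = ph (i a) (i b) τ`, `δ = fun j => i (d j)`, `δ0 = fun j => i (d0 j)`, `δ0 = P(δ) s s`. `ph_mul h.rt`, `ph_inj (det_ne h)`, `ph_surj (det_ne h)`, `ph_nf h.rt (det_ne h)`, `ph_xT`, `nf_xT`, `Te_nf_mul`, `Te_nf_map`, `m3_inv`. `LC i A B d` is by definition: `x y z`, `y ≠ 0`,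
`y^2 = x^3 + i A x + i B`, `m3 (i A) (i B) δ (xT x) = m3 (i A) (i B) z z` (`![x, -1, 0]` is `xT x`).

PROOF of (→). `sw1`: `x0, r`. Apply `ph`: `P(δ) (xt τ x) = P(z) P(z)`. `xt τ x` is invertible: its norm is `Te_nf (i A) (i B) (xT x) = y^2 ≠ 0` (ph_nf, ph_xT, nf_xT); inverse `w`. `δ0 (xT x0) = P(δ) s s (xT x0) (xt τ x) (xt τ x) w w = P(z) P(z) s s r r w w = Z Z` with `Z = P(z) s r w`.
`y0`: `Te_nf δ0 * f0(x0) = Te_nf(Z)^2`, and `Te_nf δ0 = Te_nf (i A) (i B) δ * Te_nf(s)^2`, `Te_nf (i A) (i B) δ * y^2 = Te_nf (i A) (i B) z ^ 2`; so `f0(x0) = y0^2` with `y0 = Te_nf(Z) y / (Te_nf(z) Te_nf(s))` (all norms are not zero since `i (Te_nf A B d) ≠ 0`), `y0 ≠ 0` since `f0(x0) ≠ 0`.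

PROOF of (←). `x0, y0, z0` with `δ0 (xT x0) = z0 z0`; `sw2`: `x, r`. `xT x0` is invertible (norm `y0^2`), inverse `w`; `s` is invertible, inverse `s'`. `P(δ) (xt τ x) = P(δ) s s s' s' (xt τ x) (xT x0) (xT x0) w w = z0 z0 s' s' r r w w = Z1 Z1`. By surjectivity `Z1 = P(z)`; `P(δ (xT x)) = P(z z)` (products of the left algebra), so `δ (xT x) = z z` by injectivity.
`y`: as before `f(x) = Te_nf(z)^2 / Te_nf δ`, `Te_nf (i A) (i B) δ = Te_nf δ0 / Te_nf(s)^2`, `Te_nf δ0 = Te_nf(z0)^2 / y0^2`; so `f(x) = y^2` and `y ≠ 0` since `f(x) ≠ 0`.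
-/

set_option autoImplicit false
set_option linter.unusedSectionVars false
open scoped Classical

open WithZero NumberField IsDedekindDomain H76PP H36CY

namespace H36LG

theorem LC_iff {k F : Type} [Field k] [Field F] [Valued F (WithZero (Multiplicative ℤ))]
    [CompleteSpace F] [CharZero F] (i : k →+* F) {a b A B : k} {ϖ : F} {τ : Fin 3 → F}
    (h : Near ϖ (i a) (i b) (i A) (i B) τ) {d d0 : Fin 3 → k} (hd : Te_nf A B d ≠ 0)
    {s : Fin 3 → F} (hs : Te_nf (i a) (i b) s ≠ 0)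
    (h0 : (fun j => i (d0 j)) =
      m3 (i a) (i b) (ph (i a) (i b) τ (fun j => i (d j))) (m3 (i a) (i b) s s)) :
    LC i A B d ↔ LC i a b d0 := by
  have hac : Std.Commutative (m3 (i a) (i b)) := ⟨m3_comm⟩
  have has : Std.Associative (m3 (i a) (i b)) := ⟨m3_assoc⟩
  have one' : ∀ u : Fin 3 → F, m3 (i a) (i b) u (cst 1) = u := by
    intro u
    rw [m3_comm, m3_one]
  have hP : Te_nf (i a) (i b) (ph (i a) (i b) τ (fun j => i (d j))) = i (Te_nf A B d) := by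
    rw [ph_nf h.rt (det_ne h), Te_nf_map]
  have hP0 : i (Te_nf A B d) ≠ 0 := (map_ne_zero i).2 hd
  have hN0 : Te_nf (i a) (i b) (fun j => i (d0 j)) =
      i (Te_nf A B d) * (Te_nf (i a) (i b) s * Te_nf (i a) (i b) s) := by
    rw [h0, Te_nf_mul, Te_nf_mul, hP]
  constructor
  · rintro ⟨x, y, z, hy, hxy, hm⟩
    obtain ⟨x0, r, hx0, hr⟩ := sw1 h hy hxy
    have hPt : m3 (i a) (i b) (ph (i a) (i b) τ (fun j => i (d j))) (xt τ x) =
        m3 (i a) (i b) (ph (i a) (i b) τ z) (ph (i a) (i b) τ z) := by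
      rw [← ph_xT (a := i a) (b := i b), ← ph_mul h.rt, ← ph_mul h.rt]
      exact congrArg (ph (i a) (i b) τ) hm
    have hNt : Te_nf (i a) (i b) (xt τ x) = y ^ 2 := by
      rw [← ph_xT (a := i a) (b := i b), ph_nf h.rt (det_ne h), nf_xT, hxy]
    obtain ⟨w, hw⟩ := m3_inv (z := xt τ x) (a := i a) (b := i b)
      (by rw [hNt]; exact pow_ne_zero 2 hy)
    have hZ : m3 (i a) (i b) (fun j => i (d0 j)) (xT x0) =
        m3 (i a) (i b) (m3 (i a) (i b) (ph (i a) (i b) τ z) (m3 (i a) (i b) s (m3 (i a) (i b) r w)))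
          (m3 (i a) (i b) (ph (i a) (i b) τ z) (m3 (i a) (i b) s (m3 (i a) (i b) r w))) := by
      rw [h0]
      generalize ph (i a) (i b) τ (fun j => i (d j)) = P at hPt ⊢
      generalize ph (i a) (i b) τ z = Z at hPt ⊢
      calc m3 (i a) (i b) (m3 (i a) (i b) P (m3 (i a) (i b) s s)) (xT x0)
          = m3 (i a) (i b) (m3 (i a) (i b) (m3 (i a) (i b) P (m3 (i a) (i b) s s)) (xT x0))
            (m3 (i a) (i b) (m3 (i a) (i b) (xt τ x) w) (m3 (i a) (i b) (xt τ x) w)) := by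
            rw [hw, one', one']
        _ = m3 (i a) (i b) (m3 (i a) (i b) (m3 (i a) (i b) P (xt τ x)) (m3 (i a) (i b) s s))
            (m3 (i a) (i b) (m3 (i a) (i b) (xt τ x) (xT x0)) (m3 (i a) (i b) w w)) := by
            ac_rfl
        _ = m3 (i a) (i b) (m3 (i a) (i b) (m3 (i a) (i b) Z Z) (m3 (i a) (i b) s s))
            (m3 (i a) (i b) (m3 (i a) (i b) r r) (m3 (i a) (i b) w w)) := by
            rw [hPt, hr]
        _ = _ := by ac_rfl
    have n1 : i (Te_nf A B d) * y ^ 2 = Te_nf (i a) (i b) (ph (i a) (i b) τ z) ^ 2 := by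
      have k := congrArg (Te_nf (i a) (i b)) hPt
      rw [Te_nf_mul, Te_nf_mul, hP, hNt] at k
      rw [k]
      ring
    have n2 := congrArg (Te_nf (i a) (i b)) hZ
    rw [Te_nf_mul (i a) (i b) (fun j => i (d0 j)) (xT x0), hN0, nf_xT, Te_nf_mul] at n2
    generalize Te_nf (i a) (i b) (m3 (i a) (i b) (ph (i a) (i b) τ z)
      (m3 (i a) (i b) s (m3 (i a) (i b) r w))) = N' at n2
    generalize Te_nf (i a) (i b) (ph (i a) (i b) τ z) = NZ at n1
    generalize Te_nf (i a) (i b) s = Ns at n2 hs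
    have hNZ : NZ ≠ 0 := by
      intro e
      rw [e] at n1
      exact mul_ne_zero hP0 (pow_ne_zero 2 hy) (n1.trans (by ring))
    have hy0 : (N' * y / (NZ * Ns)) ^ 2 = x0 ^ 3 + i a * x0 + i b := by
      rw [div_pow, div_eq_iff (pow_ne_zero 2 (mul_ne_zero hNZ hs))]
      have k : i (Te_nf A B d) * (N' * y) ^ 2 =
          i (Te_nf A B d) * ((x0 ^ 3 + i a * x0 + i b) * (NZ * Ns) ^ 2) := by
        linear_combination (-(i (Te_nf A B d) * y ^ 2)) * n2 +
          (i (Te_nf A B d) * Ns ^ 2 * (x0 ^ 3 + i a * x0 + i b)) * n1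
      exact mul_left_cancel₀ hP0 k
    refine ⟨x0, N' * y / (NZ * Ns), _, ?_, hy0, hZ⟩
    intro e
    rw [e] at hy0
    exact hx0 (hy0.symm.trans (by ring))
  · rintro ⟨x0, y0, z0, hy, hxy, hm⟩
    obtain ⟨x, r, hx, hr⟩ := sw2 h hy hxy
    have hNt : Te_nf (i a) (i b) (xT x0) = y0 ^ 2 := by rw [nf_xT, hxy]
    obtain ⟨w, hw⟩ := m3_inv (z := xT x0) (a := i a) (b := i b)
      (by rw [hNt]; exact pow_ne_zero 2 hy)
    obtain ⟨s', hs'⟩ := m3_inv (z := s) (a := i a) (b := i b) hs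
    have hm' : m3 (i a) (i b) (fun j => i (d0 j)) (xT x0) = m3 (i a) (i b) z0 z0 := hm
    have hZ : m3 (i a) (i b) (ph (i a) (i b) τ (fun j => i (d j))) (xt τ x) =
        m3 (i a) (i b) (m3 (i a) (i b) z0 (m3 (i a) (i b) s' (m3 (i a) (i b) r w)))
          (m3 (i a) (i b) z0 (m3 (i a) (i b) s' (m3 (i a) (i b) r w))) := by
      rw [h0] at hm'
      generalize ph (i a) (i b) τ (fun j => i (d j)) = P at hm' ⊢
      calc m3 (i a) (i b) P (xt τ x)
          = m3 (i a) (i b) (m3 (i a) (i b) P (xt τ x))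
            (m3 (i a) (i b) (m3 (i a) (i b) (m3 (i a) (i b) s s') (m3 (i a) (i b) s s'))
              (m3 (i a) (i b) (m3 (i a) (i b) (xT x0) w) (m3 (i a) (i b) (xT x0) w))) := by
            rw [hw, hs', one', one', one']
        _ = m3 (i a) (i b) (m3 (i a) (i b) (m3 (i a) (i b) P (m3 (i a) (i b) s s)) (xT x0))
            (m3 (i a) (i b) (m3 (i a) (i b) (xt τ x) (xT x0))
              (m3 (i a) (i b) (m3 (i a) (i b) s' s') (m3 (i a) (i b) w w))) := by
            ac_rfl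
        _ = m3 (i a) (i b) (m3 (i a) (i b) z0 z0) (m3 (i a) (i b) (m3 (i a) (i b) r r)
              (m3 (i a) (i b) (m3 (i a) (i b) s' s') (m3 (i a) (i b) w w))) := by
            rw [hm', hr]
        _ = _ := by ac_rfl
    obtain ⟨z, hz⟩ := ph_surj (det_ne h) (m3 (i a) (i b) z0 (m3 (i a) (i b) s' (m3 (i a) (i b) r w)))
    rw [← hz, ← ph_mul h.rt, ← ph_xT (a := i a) (b := i b), ← ph_mul h.rt] at hZ
    have hZ' := ph_inj (det_ne h) hZ
    have n1 := congrArg (Te_nf (i A) (i B)) hZ'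
    rw [Te_nf_mul, Te_nf_mul, Te_nf_map, nf_xT] at n1
    have n2 := congrArg (Te_nf (i a) (i b)) hm'
    rw [Te_nf_mul, Te_nf_mul, hN0, hNt] at n2
    generalize Te_nf (i A) (i B) z = N' at n1
    generalize Te_nf (i a) (i b) z0 = NZ at n2
    generalize Te_nf (i a) (i b) s = Ns at n2 hs
    have hNZ : NZ ≠ 0 := by
      intro e
      rw [e] at n2
      exact mul_ne_zero (mul_ne_zero hP0 (mul_ne_zero hs hs)) (pow_ne_zero 2 hy) (n2.trans (by ring))
    have hy0 : (N' * Ns * y0 / NZ) ^ 2 = x ^ 3 + i A * x + i B := by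
      rw [div_pow, div_eq_iff (pow_ne_zero 2 hNZ)]
      have k : i (Te_nf A B d) * (N' * Ns * y0) ^ 2 =
          i (Te_nf A B d) * ((x ^ 3 + i A * x + i B) * NZ ^ 2) := by
        linear_combination (-(i (Te_nf A B d) * Ns ^ 2 * y0 ^ 2)) * n1 +
          (i (Te_nf A B d) * (x ^ 3 + i A * x + i B)) * n2
      exact mul_left_cancel₀ hP0 k
    refine ⟨x, N' * Ns * y0 / NZ, z, ?_, hy0, hZ'⟩
    intro e
    rw [e] at hy0
    exact hx (hy0.symm.trans (by ring))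

end H36LG
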