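import Pool.Agent.H36.LG.Qr

/-!
ROW Na (project MP_78d38b_LG, about 130 lines): the square classes of `x - τ` and `x - T` agree if `x` is not close to a root. Use only the STATEMENTS of the imports.

PROOF. `f = x^3 + a x + b`, `C = ![x^2 + a, x, 1]`: `m3 a b (xT x) C = cst f` (`fin_cases j <;> simp [m3, xT, cst] <;> ring`). In the first case `|f| = |x|^3` (`|a x + b| ≤ |x| < |x|^3`), in the second `|f| ≥ |4 Δ^3|`; `f ≠ 0`.
`w j = f⁻¹ * m3 a b (xt τ x) C j`. `w - cst 1 = f⁻¹ * m3 a b (fun j => TT j - τ j) C` since `xt τ x j = xT x j + (TT j - τ j)`. Let `γ = max` of the three `|τ j - TT j|`, `γ < |16 Δ^3|` (h.nr). Bounds (`m3_bd`): second case: `|C| ≤ 1`, so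
`|w j - cst 1 j| ≤ γ / |f| < |16 Δ^3| / |4 Δ^3| = |4|`. First case: `|C| ≤ |x|^2`, `|w j - cst 1 j| ≤ γ |x|^2 / |x|^3 ≤ γ < |16 Δ^3| ≤ |4|` (`v_dl`). `sqrt3`: `w = m3 a b t t`. `r = m3 a b t (xT x)`: `r r = (t t) (xT x) (xT x) = f⁻¹ (xt τ x) C (xT x) (xT x) = (xt τ x) (xT x)` (m3_comm, m3_assoc, m3_smul, m3_cst).
-/

set_option autoImplicit false
set_option linter.unusedSectionVars false
open scoped Classical

open WithZero NumberField IsDedekindDomain H76PP H36CY

namespace H36LG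

variable {F : Type*} [Field F] [Valued F (WithZero (Multiplicative ℤ))]

theorem near1 [CompleteSpace F] [CharZero F] {ϖ a b A B : F} {τ : Fin 3 → F} (h : Near ϖ a b A B τ)
    {x : F} (hx : 1 < Valued.v x ∨ Valued.v x ≤ 1 ∧
      Valued.v (ϖ * dl a b ^ 3) ≤ Valued.v (x ^ 3 + a * x + b)) :
    ∃ r : Fin 3 → F, m3 a b r r = m3 a b (xt τ x) (xT x) := by
  have h4 : (4 : F) ≠ 0 := by norm_num
  have h2 : (2 : F) ≠ 0 := by norm_num
  have hd3 : ϖ * dl a b ^ 3 ≠ 0 := mul_ne_zero h.w0 (pow_ne_zero 3 h.ne)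
  have hv4 : Valued.v (ϖ ^ 2 * dl a b ^ 3) ≤ Valued.v (4 : F) * Valued.v (ϖ * dl a b ^ 3) := by
    have h1 : (ϖ ^ 2 * dl a b ^ 3 : F) = ϖ * (ϖ * dl a b ^ 3) := by ring
    rw [h1, map_mul]
    exact mul_le_mul' h.w4 le_rfl
  have hle1 : Valued.v (ϖ * dl a b ^ 3) ≤ 1 := by
    rw [map_mul, map_pow]
    exact mul_le_one' h.w1.le (pow_le_one' (v_dl h.ia h.ib) 3)
  obtain ⟨γ, hγ, hB⟩ : ∃ γ : WithZero (Multiplicative ℤ), γ < Valued.v (ϖ ^ 2 * dl a b ^ 3) ∧
      Bd γ (fun j => (TT j : F) - τ j) := by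
    have h' : ∀ j, Valued.v ((TT j : F) - τ j) < Valued.v (ϖ ^ 2 * dl a b ^ 3) := by
      intro j
      rw [Valuation.map_sub_swap]
      exact h.nr j
    refine ⟨max (Valued.v ((TT 0 : F) - τ 0)) (max (Valued.v ((TT 1 : F) - τ 1))
      (Valued.v ((TT 2 : F) - τ 2))), max_lt (h' 0) (max_lt (h' 1) (h' 2)), ?_⟩
    intro j
    fin_cases j
    · exact le_max_left _ _
    · exact (le_max_left _ _).trans (le_max_right _ _)
    · exact (le_max_right _ _).trans (le_max_right _ _)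
  obtain ⟨f, hf⟩ : ∃ f : F, f = x ^ 3 + a * x + b := ⟨_, rfl⟩
  rw [← hf] at hx
  obtain ⟨C, hCd⟩ : ∃ C : Fin 3 → F, C = ![x ^ 2 + a, x, 1] := ⟨_, rfl⟩
  have hC : m3 a b (xT x) C = cst f := by
    rw [hCd, hf]
    funext j
    fin_cases j <;> simp [m3, xT, cst] <;> ring
  have key : ∃ δ : WithZero (Multiplicative ℤ), Bd δ C ∧ f ≠ 0 ∧
      γ * δ < Valued.v (4 : F) * Valued.v f := by
    rcases hx with hx | ⟨hx, hx'⟩
    · have hx2 : 1 ≤ Valued.v x ^ 2 := one_le_pow₀ hx.le
      have hp : 0 < Valued.v x := lt_trans zero_lt_one hx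
      have hfv : Valued.v f = Valued.v x ^ 3 := by
        have h1 : Valued.v (a * x + b) < Valued.v (x ^ 3) := by
          have h3 : Valued.v (a * x + b) ≤ Valued.v x := by
            refine Valuation.map_add_le _ ?_ (h.ib.trans hx.le)
            rw [map_mul]
            exact (mul_le_mul' h.ia le_rfl).trans_eq (one_mul _)
          refine lt_of_le_of_lt h3 ?_
          rw [map_pow]
          exact lt_self_pow₀ hx (by norm_num)
        rw [hf, add_assoc, Valuation.map_add_eq_of_lt_left _ h1, map_pow]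
      refine ⟨Valued.v x ^ 2, ?_, ?_, ?_⟩
      · intro j
        rw [hCd]
        fin_cases j
        · refine Valuation.map_add_le _ ?_ (h.ia.trans hx2)
          rw [map_pow]
        · exact le_self_pow₀ hx.le (by norm_num)
        · exact (le_of_eq (map_one _)).trans hx2
      · intro h0
        rw [h0, map_zero] at hfv
        exact absurd hfv.symm (pow_pos hp 3).ne'
      · rw [hfv]
        have h5 : γ < Valued.v (4 : F) := by
          refine lt_of_lt_of_le hγ (hv4.trans ?_)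
          exact (mul_le_mul' le_rfl hle1).trans_eq (mul_one _)
        refine lt_of_le_of_lt (mul_le_mul' le_rfl (pow_le_pow_right₀ hx.le (by norm_num : 2 ≤ 3))) ?_
        exact mul_lt_mul_of_pos_right h5 (pow_pos hp 3)
    · have hvp : 0 < Valued.v (ϖ * dl a b ^ 3) := by
        rw [zero_lt_iff]
        exact (Valuation.ne_zero_iff _).2 hd3
      refine ⟨1, ?_, ?_, ?_⟩
      · intro j
        rw [hCd]
        fin_cases j
        · refine Valuation.map_add_le _ ?_ h.ia
          rw [map_pow]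
          exact pow_le_one' hx 2
        · exact hx
        · exact le_of_eq (map_one _)
      · intro h0
        rw [h0, map_zero] at hx'
        exact absurd (lt_of_lt_of_le hvp hx') (lt_irrefl _)
      · rw [mul_one]
        refine lt_of_lt_of_le hγ (hv4.trans ?_)
        exact mul_le_mul' le_rfl hx'
  obtain ⟨δ, hδ, hf0, hlt⟩ := key
  have hvf : 0 < Valued.v f := by
    rw [zero_lt_iff]
    exact (Valuation.ne_zero_iff _).2 hf0
  have hw : ∀ j, f⁻¹ * m3 a b (xt τ x) C j - cst 1 j =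
      f⁻¹ * m3 a b (fun j => (TT j : F) - τ j) C j := by
    intro j
    have h1 : xt τ x = fun j => xT x j + ((TT j : F) - τ j) := by
      funext i
      fin_cases i <;> simp [xt, xT, TT] <;> ring
    rw [h1]
    have h2 := congrFun (m3_add (a := a) (b := b) (xT x) (fun j => (TT j : F) - τ j) C) j
    rw [h2, hC]
    have h3 : cst (1 : F) j = f⁻¹ * cst f j := by
      fin_cases j
      · exact (inv_mul_cancel₀ hf0).symm
      · exact (mul_zero _).symm
      · exact (mul_zero _).symm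
    rw [h3]
    ring
  obtain ⟨t, ht⟩ := sqrt3 h.ia h.ib h2 (z := fun j => f⁻¹ * m3 a b (xt τ x) C j) (by
    intro j
    rw [hw j, map_mul, map_inv₀]
    have h1 := m3_bd h.ia h.ib hB hδ j
    have h3 : (Valued.v f)⁻¹ * Valued.v (m3 a b (fun j => (TT j : F) - τ j) C j) ≤
        (Valued.v f)⁻¹ * (γ * δ) := mul_le_mul' le_rfl h1
    refine lt_of_le_of_lt h3 ?_
    have h4 : (Valued.v f)⁻¹ * (γ * δ) < (Valued.v f)⁻¹ * (Valued.v (4 : F) * Valued.v f) :=
      mul_lt_mul_of_pos_left hlt (inv_pos.2 hvf)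
    refine lt_of_lt_of_eq h4 ?_
    rw [mul_comm (Valued.v (4 : F)), inv_mul_cancel_left₀ hvf.ne'])
  refine ⟨m3 a b t (xT x), ?_⟩
  have e1 : m3 a b (m3 a b t (xT x)) (m3 a b t (xT x)) =
      m3 a b (m3 a b t t) (m3 a b (xT x) (xT x)) := by
    rw [m3_assoc, ← m3_assoc (xT x) t (xT x), m3_comm (xT x) t, m3_assoc t (xT x) (xT x),
      ← m3_assoc]
  rw [e1, ht, m3_smul, m3_assoc, ← m3_assoc C, m3_comm C (xT x), hC]
  have e2 : m3 a b (cst f) (xT x) = fun j => f * xT x j := funext (fun j => m3_cst f (xT x) j)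
  rw [e2, m3_comm (xt τ x), m3_smul, m3_comm (xT x)]
  funext j
  exact inv_mul_cancel_left₀ hf0 _

end H36LG
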