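import Pool.Agent.H36.LG.Qr
import Pool.Agent.H36.LG.Hc

/-!
ROW Nb (project MP_78d38b_LG, about 200 lines): the square class near a root `e` of `T^3 + a T + b`. Use only the STATEMENTS of the imports. `e1, pp, qq, N2, crt_ex, e1_m3, pp_m3, qq_m3, nf_fac` are in Pool/Agent/H36/CY/Df.lean and Ag.lean (there `θ` is our `e`).

PROOF. `Δ = dl a b`, `D = 3 e^2 + a`, `|Δ| ≤ |D| ≤ 1` (der_le), `D ≠ 0`. `γ` = max of `|τ j - TT j|`, `γ < |16 Δ^3| ≤ |4 Δ^2|`. `e' = e1 e τ`, `e' - e = e1 e τ - e1 e TT` has valuation `≤ γ`, so `|x - e| < |4 Δ^2|`. Let `η` = max of `|x - e|, |x0 - e|, γ`; `η < |4 Δ^2| ≤ |4 D^2|`.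
By `crt_ex` (with `θ = e`) take `s` with `e1 e s = 1 / r`, `pp e a s = 2 e / D`, `qq e s = 1 / D`. Let `z = m3 a b (xt τ x) (xT x0)`, `w = m3 a b z (m3 a b s s)`.
(1) `e1 e w = (x - e') (x0 - e) / r^2 = 1` (`e1_m3`; `e1 e (xt τ x) = x - e'`, `e1 e (xT x0) = x0 - e`).
(2) In `F[T] / (T^2 + e T + e^2 + a)` (coordinates `pp, qq`, product by `pp_m3`, `qq_m3`) the inverse of `e - T` is `(T + 2 e) / D`, i.e. `s`. `x0 - T = (x0 - e) + (e - T)`, so `(xT x0) s = 1 + β`, `β = (x0 - e) s`: explicitly `pp = 1 + (x0 - e) 2 e / D`, `qq = (x0 - e) / D` for `m3 a b (xT x0) s`.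
`(xt τ x) s = 1 + α`, `α = ((x - e) + (TT - τ)) s`: `pp`, `qq` of `m3 a b (xt τ x) s` minus those of `1` are at most `η / |D|` (the `pp`, `qq` of `TT - τ` are `≤ γ` since `|e^2 + a|, |e| ≤ 1`). So `w = ((xt τ x) s) ((xT x0) s)` has `|pp e a w - 1| ≤ η / |D|`, `|qq e w| ≤ η / |D|` (`η / |D| ≤ 1`).
(3) `D * w 2 = e1 e w - pp e a w - e * qq e w` (ring), so `|w 2| ≤ η / |D|^2 < |4|`; `w 1 = qq e w + w 2 * e`, `w 0 = pp e a w + w 2 * (e^2 + a)`: all `|w j - cst 1 j| ≤ η / |D|^2 < |4|`. `sqrt3`: `w = m3 a b t t`.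
(4) `Te_nf a b s = e1 e s * N2 e a (pp e a s) (qq e s) = (1 / r) * (1 / D) ≠ 0` (`nf_fac`; `N2 e a (2 e / D) (1 / D) = 1 / D`), so there is `s'` with `m3 a b s s' = cst 1` (`m3_inv`). `ρ = m3 a b t s'` has `ρ ρ = w s' s' = z`.
-/

set_option autoImplicit false
set_option linter.unusedSectionVars false
open scoped Classical

open WithZero NumberField IsDedekindDomain H76PP H36CY

namespace H36LG

variable {F : Type*} [Field F] [Valued F (WithZero (Multiplicative ℤ))]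

theorem Nb_mul {x y : F} {κ : WithZero (Multiplicative ℤ)} (hx : Valued.v x ≤ 1)
    (hy : Valued.v y ≤ κ) : Valued.v (x * y) ≤ κ := by
  rw [map_mul]
  exact (mul_le_mul' hx hy).trans_eq (one_mul _)

theorem Nb_mul4 {a b : F} (p q r s : Fin 3 → F) :
    m3 a b (m3 a b p q) (m3 a b r s) = m3 a b (m3 a b p r) (m3 a b q s) := by
  rw [m3_assoc, ← m3_assoc q r s, m3_comm q r, m3_assoc r q s, ← m3_assoc]

/-- A common bound for all the small quantities. -/
theorem Nb_eta {ϖ a b A B : F} {τ : Fin 3 → F} (h : Near ϖ a b A B τ)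
    {e x x0 : F} (he : Valued.v e ≤ 1)
    (hx : Valued.v (x - e1 e τ) < Valued.v (ϖ * dl a b ^ 2))
    (hx0 : Valued.v (x0 - e) < Valued.v (ϖ * dl a b ^ 2)) :
    ∃ η : WithZero (Multiplicative ℤ), Valued.v (x - e) ≤ η ∧ Valued.v (x0 - e) ≤ η ∧
      (∀ j, Valued.v (τ j - TT j) ≤ η) ∧ η < Valued.v (ϖ * dl a b ^ 2) := by
  have hτ : ∀ j, Valued.v (τ j - TT j) < Valued.v (ϖ * dl a b ^ 2) := by
    intro j
    refine lt_of_lt_of_le (h.nr j) ?_
    have h1 : (ϖ ^ 2 * dl a b ^ 3 : F) = (ϖ * dl a b) * (ϖ * dl a b ^ 2) := by ring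
    rw [h1]
    exact Nb_mul (Nb_mul h.w1.le (v_dl h.ia h.ib)) le_rfl
  have hxe : Valued.v (x - e) < Valued.v (ϖ * dl a b ^ 2) := by
    have h1 : x - e = (x - e1 e τ) + ((τ 0 - TT 0) + e * (τ 1 - TT 1) + e ^ 2 * (τ 2 - TT 2)) := by
      simp only [e1, TT, Matrix.cons_val_zero, Matrix.cons_val_one, Matrix.cons_val_two,
        Matrix.head_cons, Matrix.tail_cons, Matrix.cons_val]
      ring
    have he2 : Valued.v (e ^ 2) ≤ 1 := by
      rw [map_pow]
      exact pow_le_one' he 2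
    rw [h1]
    refine Valuation.map_add_lt _ hx (Valuation.map_add_lt _ (Valuation.map_add_lt _ (hτ 0) ?_) ?_)
    · exact lt_of_le_of_lt (Nb_mul he le_rfl) (hτ 1)
    · exact lt_of_le_of_lt (Nb_mul he2 le_rfl) (hτ 2)
  refine ⟨max (max (Valued.v (x - e)) (Valued.v (x0 - e)))
    (max (max (Valued.v (τ 0 - TT 0)) (Valued.v (τ 1 - TT 1))) (Valued.v (τ 2 - TT 2))),
    ?_, ?_, ?_, ?_⟩
  · exact (le_max_left _ _).trans (le_max_left _ _)
  · exact (le_max_right _ _).trans (le_max_left _ _)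
  · intro j
    fin_cases j
    · exact ((le_max_left _ _).trans (le_max_left _ _)).trans (le_max_right _ _)
    · exact ((le_max_right _ _).trans (le_max_left _ _)).trans (le_max_right _ _)
    · exact (le_max_right _ _).trans (le_max_right _ _)
  · exact max_lt (max_lt hxe hx0) (max_lt (max_lt (hτ 0) (hτ 1)) (hτ 2))

/-- The coordinates of an element whose residues are close to those of `1`. -/
theorem Nb_coord {a e : F} (ha : Valued.v a ≤ 1) (he : Valued.v e ≤ 1) (hD : 3 * e ^ 2 + a ≠ 0)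
    (hD1 : Valued.v (3 * e ^ 2 + a) ≤ 1) {κ μ : WithZero (Multiplicative ℤ)} {w : Fin 3 → F}
    (h1 : e1 e w = 1) (hp : Valued.v (pp e a w - 1) ≤ κ) (hq : Valued.v (qq e w) ≤ κ)
    (hκ : κ < μ * Valued.v (3 * e ^ 2 + a)) : ∀ j, Valued.v (w j - cst 1 j) < μ := by
  have hD0 : 0 < Valued.v (3 * e ^ 2 + a) := (Valuation.pos_iff _).2 hD
  have hκμ : κ < μ := by
    refine lt_of_lt_of_le hκ ?_
    exact (mul_le_mul' le_rfl hD1).trans_eq (mul_one _)
  have h2 : Valued.v (w 2) < μ := by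
    have h3 : (3 * e ^ 2 + a) * w 2 = -((pp e a w - 1) + e * qq e w) := by
      unfold e1 at h1
      unfold pp qq
      linear_combination h1
    have h4 : Valued.v ((3 * e ^ 2 + a) * w 2) ≤ κ := by
      rw [h3, Valuation.map_neg]
      exact Valuation.map_add_le _ hp (Nb_mul he hq)
    rw [map_mul, mul_comm] at h4
    exact lt_of_mul_lt_mul_right' (lt_of_le_of_lt h4 hκ)
  have hea : Valued.v (e ^ 2 + a) ≤ 1 := by
    refine Valuation.map_add_le _ ?_ ha
    rw [map_pow]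
    exact pow_le_one' he 2
  intro j
  fin_cases j
  · have h3 : w 0 - 1 = (pp e a w - 1) + (e ^ 2 + a) * w 2 := by
      unfold pp
      ring
    show Valued.v (w 0 - 1) < μ
    rw [h3]
    exact Valuation.map_add_lt _ (lt_of_le_of_lt hp hκμ) (lt_of_le_of_lt (Nb_mul hea le_rfl) h2)
  · have h3 : w 1 - 0 = qq e w + e * w 2 := by
      unfold qq
      ring
    show Valued.v (w 1 - 0) < μ
    rw [h3]
    exact Valuation.map_add_lt _ (lt_of_le_of_lt hq hκμ) (lt_of_le_of_lt (Nb_mul he le_rfl) h2)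
  · show Valued.v (w 2 - 0) < μ
    rw [sub_zero]
    exact h2

/-- The residues of a product of two elements close to `1`. -/
theorem Nb_prod {a b e : F} (her : e ^ 3 + a * e + b = 0) (ha : Valued.v a ≤ 1)
    (he : Valued.v e ≤ 1) {κ : WithZero (Multiplicative ℤ)} (hκ : κ ≤ 1) {u v : Fin 3 → F}
    (hu1 : Valued.v (pp e a u - 1) ≤ κ) (hu2 : Valued.v (qq e u) ≤ κ)
    (hv1 : Valued.v (pp e a v - 1) ≤ κ) (hv2 : Valued.v (qq e v) ≤ κ) :
    Valued.v (pp e a (m3 a b v u) - 1) ≤ κ ∧ Valued.v (qq e (m3 a b v u)) ≤ κ := by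
  have hea : Valued.v (e ^ 2 + a) ≤ 1 := by
    refine Valuation.map_add_le _ ?_ ha
    rw [map_pow]
    exact pow_le_one' he 2
  have hqq : Valued.v (qq e v * qq e u) ≤ κ := Nb_mul (hv2.trans hκ) hu2
  constructor
  · have h1 : pp e a (m3 a b v u) - 1 = (pp e a v - 1) + (pp e a u - 1) +
        (pp e a v - 1) * (pp e a u - 1) - (e ^ 2 + a) * (qq e v * qq e u) := by
      rw [pp_m3 her]
      ring
    rw [h1]
    refine Valuation.map_sub_le _ (Valuation.map_add_le _ (Valuation.map_add_le _ hv1 hu1) ?_) ?_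
    · exact Nb_mul (hv1.trans hκ) hu1
    · exact Nb_mul hea hqq
  · have h1 : qq e (m3 a b v u) = qq e u + (pp e a v - 1) * qq e u + qq e v +
        qq e v * (pp e a u - 1) - e * (qq e v * qq e u) := by
      rw [qq_m3 her]
      ring
    rw [h1]
    refine Valuation.map_sub_le _ (Valuation.map_add_le _ (Valuation.map_add_le _
      (Valuation.map_add_le _ hu2 ?_) hv2) ?_) ?_
    · exact Nb_mul (hv1.trans hκ) hu2
    · exact Nb_mul (hv2.trans hκ) hu1
    · exact Nb_mul he hqq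

theorem near2 [CompleteSpace F] [CharZero F] {ϖ a b A B : F} {τ : Fin 3 → F} (h : Near ϖ a b A B τ)
    {e x x0 r : F} (he : Valued.v e ≤ 1) (her : e ^ 3 + a * e + b = 0)
    (hx : Valued.v (x - e1 e τ) < Valued.v (ϖ * dl a b ^ 2))
    (hx0 : Valued.v (x0 - e) < Valued.v (ϖ * dl a b ^ 2))
    (hr : (x - e1 e τ) * (x0 - e) = r ^ 2) (hr0 : r ≠ 0) :
    ∃ ρ : Fin 3 → F, m3 a b ρ ρ = m3 a b (xt τ x) (xT x0) := by
  have h2F : (2 : F) ≠ 0 := two_ne_zero
  have ha := h.ia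
  have hb := h.ib
  obtain ⟨η, hη1, hη2, hη3, hη4⟩ := Nb_eta h he hx hx0
  have hΔD := der_le ha hb he her
  have hΔ0 : 0 < Valued.v (dl a b) := (Valuation.pos_iff _).2 h.ne
  have hD0 : 0 < Valued.v (3 * e ^ 2 + a) := lt_of_lt_of_le hΔ0 hΔD
  have hD : 3 * e ^ 2 + a ≠ 0 := (Valuation.pos_iff _).1 hD0
  have he2 : Valued.v (e ^ 2) ≤ 1 := by
    rw [map_pow]
    exact pow_le_one' he 2
  have hD1 : Valued.v (3 * e ^ 2 + a) ≤ 1 := Valuation.map_add_le _ (Nb_mul (v_ofNat 3) he2) ha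
  have hea : Valued.v (e ^ 2 + a) ≤ 1 := Valuation.map_add_le _ he2 ha
  have h2e : Valued.v (2 * e) ≤ 1 := Nb_mul (v_ofNat 2) he
  have h4Δ : Valued.v (ϖ * dl a b ^ 2) ≤
      Valued.v (4 : F) * Valued.v (3 * e ^ 2 + a) * Valued.v (3 * e ^ 2 + a) := by
    rw [map_mul, map_pow, pow_two, mul_assoc]
    exact mul_le_mul' h.w4 (mul_le_mul' hΔD hΔD)
  have hηD : η < Valued.v (4 : F) * Valued.v (3 * e ^ 2 + a) * Valued.v (3 * e ^ 2 + a) :=
    lt_of_lt_of_le hη4 h4Δ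
  obtain ⟨κ, hκ⟩ : ∃ κ : WithZero (Multiplicative ℤ), κ = Valued.v ((3 * e ^ 2 + a)⁻¹) * η :=
    ⟨_, rfl⟩
  have hinv : Valued.v ((3 * e ^ 2 + a)⁻¹) * Valued.v (3 * e ^ 2 + a) = 1 := by
    rw [← map_mul, inv_mul_cancel₀ hD, map_one]
  have hκD : κ * Valued.v (3 * e ^ 2 + a) = η := by
    rw [hκ, mul_comm (Valued.v ((3 * e ^ 2 + a)⁻¹)) η, mul_assoc, hinv, mul_one]
  have hκ4 : κ < Valued.v (4 : F) * Valued.v (3 * e ^ 2 + a) := by
    refine lt_of_mul_lt_mul_right' (a := Valued.v (3 * e ^ 2 + a)) ?_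
    rw [hκD]
    exact hηD
  have hκ1 : κ ≤ 1 := by
    refine hκ4.le.trans ?_
    exact mul_le_one' (v_ofNat 4) hD1
  have hκm : ∀ y : F, Valued.v y ≤ η → Valued.v ((3 * e ^ 2 + a)⁻¹ * y) ≤ κ := by
    intro y hy
    rw [map_mul, hκ]
    exact mul_le_mul' le_rfl hy
  have hDi : (3 * e ^ 2 + a)⁻¹ * (3 * e ^ 2 + a) = 1 := inv_mul_cancel₀ hD
  obtain ⟨Di, hDi'⟩ : ∃ Di : F, Di = (3 * e ^ 2 + a)⁻¹ := ⟨_, rfl⟩
  rw [← hDi'] at hDi hκm
  obtain ⟨s, hs1, hs2, hs3⟩ := crt_ex hD (1 / r) (2 * e * Di) Di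
  have hP : Valued.v (pp e a τ) ≤ η := by
    have h1 : pp e a τ = (τ 0 - TT 0) - (e ^ 2 + a) * (τ 2 - TT 2) := by
      simp only [pp, TT, Matrix.cons_val_zero, Matrix.cons_val_two, Matrix.head_cons,
        Matrix.tail_cons, Matrix.cons_val]
      ring
    rw [h1]
    exact Valuation.map_sub_le _ (hη3 0) (Nb_mul hea (hη3 2))
  have hQ : Valued.v (qq e τ - 1) ≤ η := by
    have h1 : qq e τ - 1 = (τ 1 - TT 1) - e * (τ 2 - TT 2) := by
      simp only [qq, TT, Matrix.cons_val_one, Matrix.cons_val_two, Matrix.head_cons,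
        Matrix.tail_cons, Matrix.cons_val]
      ring
    rw [h1]
    exact Valuation.map_sub_le _ (hη3 1) (Nb_mul he (hη3 2))
  have hpx : pp e a (xt τ x) = x - pp e a τ := by
    simp only [pp, xt, Matrix.cons_val_zero, Matrix.cons_val_two, Matrix.head_cons,
      Matrix.tail_cons, Matrix.cons_val]
    ring
  have hqx : qq e (xt τ x) = -qq e τ := by
    simp only [qq, xt, Matrix.cons_val_one, Matrix.cons_val_two, Matrix.head_cons,
      Matrix.tail_cons, Matrix.cons_val]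
    ring
  have hpx0 : pp e a (xT x0) = x0 := by
    simp only [pp, xT, Matrix.cons_val_zero, Matrix.cons_val_two, Matrix.head_cons,
      Matrix.tail_cons, Matrix.cons_val]
    ring
  have hqx0 : qq e (xT x0) = -1 := by
    simp only [qq, xT, Matrix.cons_val_one, Matrix.cons_val_two, Matrix.head_cons,
      Matrix.tail_cons, Matrix.cons_val]
    ring
  have hv1 : Valued.v (pp e a (m3 a b (xt τ x) s) - 1) ≤ κ := by
    have h1 : pp e a (m3 a b (xt τ x) s) - 1 =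
        Di * (2 * e * (x - e) - 2 * e * pp e a τ + (e ^ 2 + a) * (qq e τ - 1)) := by
      rw [pp_m3 her, hpx, hqx, hs2, hs3]
      linear_combination hDi
    rw [h1]
    exact hκm _ (Valuation.map_add_le _ (Valuation.map_sub_le _ (Nb_mul h2e hη1)
      (Nb_mul h2e hP)) (Nb_mul hea hQ))
  have hv2 : Valued.v (qq e (m3 a b (xt τ x) s)) ≤ κ := by
    have h1 : qq e (m3 a b (xt τ x) s) = Di * ((x - e) - pp e a τ - e * (qq e τ - 1)) := by
      rw [qq_m3 her, hpx, hqx, hs2, hs3]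
      ring
    rw [h1]
    exact hκm _ (Valuation.map_sub_le _ (Valuation.map_sub_le _ hη1 hP) (Nb_mul he hQ))
  have hu1 : Valued.v (pp e a (m3 a b (xT x0) s) - 1) ≤ κ := by
    have h1 : pp e a (m3 a b (xT x0) s) - 1 = Di * (2 * e * (x0 - e)) := by
      rw [pp_m3 her, hpx0, hqx0, hs2, hs3]
      linear_combination hDi
    rw [h1]
    exact hκm _ (Nb_mul h2e hη2)
  have hu2 : Valued.v (qq e (m3 a b (xT x0) s)) ≤ κ := by
    have h1 : qq e (m3 a b (xT x0) s) = Di * (x0 - e) := by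
      rw [qq_m3 her, hpx0, hqx0, hs2, hs3]
      ring
    rw [h1]
    exact hκm _ hη2
  obtain ⟨hw1, hw2⟩ := Nb_prod her ha he hκ1 hu1 hu2 hv1 hv2
  have hwe : e1 e (m3 a b (m3 a b (xt τ x) s) (m3 a b (xT x0) s)) = 1 := by
    have h1 : e1 e (xt τ x) = x - e1 e τ := by
      simp only [e1, xt, Matrix.cons_val_zero, Matrix.cons_val_one, Matrix.cons_val_two,
        Matrix.head_cons, Matrix.tail_cons, Matrix.cons_val]
      ring
    have h3 : e1 e (xT x0) = x0 - e := by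
      simp only [e1, xT, Matrix.cons_val_zero, Matrix.cons_val_one, Matrix.cons_val_two,
        Matrix.head_cons, Matrix.tail_cons, Matrix.cons_val]
      ring
    rw [e1_m3 her, e1_m3 her, e1_m3 her, h1, h3, hs1]
    field_simp
    linear_combination hr
  obtain ⟨t, ht⟩ := sqrt3 ha hb h2F (Nb_coord ha he hD hD1 hwe hw1 hw2 hκ4)
  have hnf : Te_nf a b s ≠ 0 := by
    rw [nf_fac her, hs1, hs2, hs3]
    have h1 : N2 e a (2 * e * Di) Di = Di := by
      unfold N2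
      linear_combination Di * hDi
    rw [h1]
    refine mul_ne_zero (one_div_ne_zero hr0) ?_
    rw [hDi']
    exact inv_ne_zero hD
  obtain ⟨s', hs'⟩ := m3_inv hnf
  refine ⟨m3 a b t s', ?_⟩
  have h11 : m3 a b (cst (1 : F)) (cst 1) = cst 1 := m3_one _
  rw [Nb_mul4, ht, Nb_mul4 (xt τ x) s (xT x0) s, m3_assoc, Nb_mul4 s s s' s', hs', h11, m3_comm,
    m3_one]

end H36LG
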