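import Pool.Agent.H36.LG.Na
import Pool.Agent.H36.LG.Nb

/-!
ROW Sw (project MP_78d38b_LG, about 230 lines): a point of `y^2 = x^3 + A x + B` has a partner on `y^2 = x^3 + a x + b`, and conversely. Use only the STATEMENTS of the imports (`sq_near` is in Pool/Agent/H36/CY/Sq.lean: `|y - z| < |4 z|` gives `y = z r^2`, `r ≠ 0`).

Notation: `Δ = dl a b`, `f0(X) = X^3 + a X + b`, `f(X) = X^3 + A X + B`. `|A|, |B| ≤ 1`. `|4| < 1`.

PROOF of root_tau: apply `e1 e` to `h.rt` (`e1_m3`): `e1 e τ` is a root of `f`; `|e1 e τ - e| < |16 Δ^3|` (`e1 e τ - e = (τ 0 - TT 0) + (τ 1 - TT 1) e + (τ 2 - TT 2) e^2`).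

PROOF of sw1. (C1) `1 < |x|` or `|x| ≤ 1 ∧ |4 Δ^3| ≤ |f0(x)|`: `x0 = x`, `near1`; `f0(x) ≠ 0` (`|f0(x)| = |x|^3` for `|x| > 1`). (C2) `|x| ≤ 1`, `|f0(x)| < |4 Δ^3| ≤ |Δ^2|`: `root_near` gives `e` with `|x - e| |Δ| ≤ |f0(x)|`, so `|x - e| < |4 Δ^2|`. `D = 3 e^2 + a`, `|Δ| ≤ |D| ≤ 1` (der_le). `e' = e1 e τ`: `f(e') = 0`, `|e' - e| < |16 Δ^3| ≤ |4 Δ^2|`, so `|x - e'| < |4 Δ^2|`.
`y^2 = f(x) - f(e') = (x - e') M`, `M = x^2 + x e' + e'^2 + A`; `|M - D| < |4 Δ| ≤ |4 D|` (`M - D = (x - e)(x + e) + (x - e) e' + e (e' - e) + (e' - e)(e' + e) + (A - a)`), so `M = D u^2`, `u ≠ 0` (sq_near). `x0 = e + D (4 Δ)^2`: `|x0 - e| ≤ |16 Δ^2| < |4 Δ^2|`.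
`(x - e') (x0 - e) = (4 Δ y / u)^2`. `near2`. `f0(x0) = (x0 - e) (x0^2 + x0 e + e^2 + a)`, the second factor is `D + (x0 - e)(x0 + 2 e)`, of valuation `|D| ≠ 0` since `|x0 - e| < |4 Δ^2| ≤ |D|`; so `f0(x0) ≠ 0`.

PROOF of sw2. (C1) the same condition for `x0`: `x = x0`, `near1`; `f(x0) ≠ 0`: `|f(x0) - f0(x0)| = |(A - a) x0 + (B - b)| < |16 Δ^3| ≤ |f0(x0)|` if `|x0| ≤ 1`, and `|f(x0)| = |x0|^3` if `|x0| > 1`. (C2) `root_near` for `x0`: `e`, `|x0 - e| < |4 Δ^2|`; `y0^2 = f0(x0) = (x0 - e) M0`, `M0 = x0^2 + x0 e + e^2 + a`, `M0 - D = (x0 - e)(x0 + 2 e)`, so `M0 = D u^2`.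
`x = e' + D (4 Δ)^2`, `(x - e') (x0 - e) = (4 Δ y0 / u)^2`, `near2`; `f(x) = (x - e') M` with `M` as in sw1, `|M - D| < |D|`, so `f(x) ≠ 0`.
-/

set_option autoImplicit false
set_option linter.unusedSectionVars false
open scoped Classical

open WithZero NumberField IsDedekindDomain H76PP H36CY

namespace H36LG

variable {F : Type*} [Field F] [Valued F (WithZero (Multiplicative ℤ))] {ϖ a b A B : F}
  {τ : Fin 3 → F}

private theorem Sw_mul_lt {x y g : F} (hx : Valued.v x < Valued.v g) (hy : Valued.v y ≤ 1) :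
    Valued.v (x * y) < Valued.v g := by
  rw [map_mul]
  exact (mul_le_of_le_one_right' hy).trans_lt hx

private theorem Sw_mul_lt' {x y g : F} (hx : Valued.v x < Valued.v g) (hy : Valued.v y ≤ 1) :
    Valued.v (y * x) < Valued.v g := by
  rw [mul_comm]
  exact Sw_mul_lt hx hy

private theorem Sw_nz (h : Near ϖ a b A B τ) [CharZero F] : (ϖ * dl a b ^ 2 : F) ≠ 0 :=
  mul_ne_zero h.w0 (pow_ne_zero 2 h.ne)

/-- `|16 Δ^3| ≤ |4 Δ^2|` -/
private theorem Sw_16 (h : Near ϖ a b A B τ) :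
    Valued.v (ϖ ^ 2 * dl a b ^ 3) ≤ Valued.v (ϖ * dl a b ^ 2) := by
  have h1 : (ϖ ^ 2 * dl a b ^ 3 : F) = ϖ * dl a b ^ 2 * (ϖ * dl a b) := by ring
  rw [h1, map_mul]
  refine mul_le_of_le_one_right' ?_
  rw [map_mul]
  exact mul_le_one' h.w1.le (v_dl h.ia h.ib)

/-- `|4 Δ^2| ≤ |4 Δ|` -/
private theorem Sw_4 (h : Near ϖ a b A B τ) :
    Valued.v (ϖ * dl a b ^ 2) ≤ Valued.v (ϖ * dl a b) := by
  have h1 : (ϖ * dl a b ^ 2 : F) = ϖ * dl a b * dl a b := by ring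
  rw [h1, map_mul]
  exact mul_le_of_le_one_right' (v_dl h.ia h.ib)

private theorem Sw_4one (h : Near ϖ a b A B τ) : Valued.v (ϖ * dl a b ^ 2) ≤ 1 := by
  rw [map_mul, map_pow]
  exact mul_le_one' h.w1.le (pow_le_one' (v_dl h.ia h.ib) 2)

private theorem Sw_A (h : Near ϖ a b A B τ) : Valued.v A ≤ 1 := by
  have h1 : A = (A - a) + a := by ring
  rw [h1]
  exact Valuation.map_add_le _ ((h.dA.trans_le ((Sw_16 h).trans (Sw_4one h))).le) h.ia

private theorem Sw_B (h : Near ϖ a b A B τ) : Valued.v B ≤ 1 := by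
  have h1 : B = (B - b) + b := by ring
  rw [h1]
  exact Valuation.map_add_le _ ((h.dB.trans_le ((Sw_16 h).trans (Sw_4one h))).le) h.ib

private theorem Sw_big {a b x : F} (ha : Valued.v a ≤ 1) (hb : Valued.v b ≤ 1)
    (hx : 1 < Valued.v x) : x ^ 3 + a * x + b ≠ 0 := by
  intro h
  have h1 : x ^ 3 = -(a * x + b) := by linear_combination h
  have h2 : Valued.v (x ^ 3) ≤ Valued.v x := by
    rw [h1, Valuation.map_neg]
    refine Valuation.map_add_le _ ?_ (hb.trans hx.le)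
    rw [map_mul]
    exact mul_le_of_le_one_left' ha
  have h3 : Valued.v x < Valued.v (x ^ 3) := by
    have hx0 : 0 < Valued.v x := zero_lt_one.trans hx
    rw [map_pow, pow_succ, pow_two]
    calc Valued.v x = 1 * Valued.v x := (one_mul _).symm
      _ < Valued.v x * Valued.v x * Valued.v x := by
        refine (mul_lt_mul_iff_left₀ hx0).2 ?_
        exact one_lt_mul'' hx hx
  exact absurd h2 (not_le.2 h3)

private theorem Sw_gen [CompleteSpace F] [CharZero F] (h : Near ϖ a b A B τ) {e e' x A' : F}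
    (he : Valued.v e ≤ 1) (her : e ^ 3 + a * e + b = 0)
    (h1 : Valued.v (x - e) < Valued.v (ϖ * dl a b ^ 2))
    (h2 : Valued.v (e' - e) < Valued.v (ϖ * dl a b ^ 2))
    (h3 : Valued.v (A' - a) < Valued.v (ϖ * dl a b ^ 2)) :
    ∃ u : F, u ≠ 0 ∧ x ^ 2 + x * e' + e' ^ 2 + A' = (3 * e ^ 2 + a) * u ^ 2 := by
  have hx : Valued.v x ≤ 1 := by
    have k : x = (x - e) + e := by ring
    rw [k]
    exact Valuation.map_add_le _ (h1.trans_le (Sw_4one h)).le he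
  have he' : Valued.v e' ≤ 1 := by
    have k : e' = (e' - e) + e := by ring
    rw [k]
    exact Valuation.map_add_le _ (h2.trans_le (Sw_4one h)).le he
  refine sq_near (lt_of_lt_of_le (b := Valued.v (ϖ * dl a b ^ 2)) ?_ ?_)
  · have k : x ^ 2 + x * e' + e' ^ 2 + A' - (3 * e ^ 2 + a) =
        (x - e) * (x + e) + (x - e) * e' + e * (e' - e) + (e' - e) * (e' + e) + (A' - a) := by
      ring
    rw [k]
    refine Valuation.map_add_lt _ (Valuation.map_add_lt _ (Valuation.map_add_lt _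
      (Valuation.map_add_lt _ ?_ ?_) ?_) ?_) h3
    · exact Sw_mul_lt h1 (Valuation.map_add_le _ hx he)
    · exact Sw_mul_lt h1 he'
    · exact Sw_mul_lt' h2 he
    · exact Sw_mul_lt h2 (Valuation.map_add_le _ he' he)
  · refine (Sw_4 h).trans ?_
    rw [map_mul, map_mul]
    exact mul_le_mul' h.w4 (der_le h.ia h.ib he her)

private theorem Sw_D (h : Near ϖ a b A B τ) {e : F} (he : Valued.v e ≤ 1)
    (her : e ^ 3 + a * e + b = 0) : 3 * e ^ 2 + a ≠ 0 := by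
  intro h0
  have h1 := der_le h.ia h.ib he her
  rw [h0, map_zero, le_zero_iff] at h1
  exact h.ne ((Valuation.zero_iff _).1 h1)

private theorem Sw_D1 (h : Near ϖ a b A B τ) {e : F} (he : Valued.v e ≤ 1) :
    Valued.v (3 * e ^ 2 + a) ≤ 1 := by
  refine Valuation.map_add_le _ ?_ h.ia
  rw [map_mul, map_pow]
  exact mul_le_one' (v_ofNat 3) (pow_le_one' he 2)

private theorem Sw_16D [CharZero F] (h : Near ϖ a b A B τ) {e : F} (he : Valued.v e ≤ 1) :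
    Valued.v ((3 * e ^ 2 + a) * (ϖ * dl a b) ^ 2) < Valued.v (ϖ * dl a b ^ 2) := by
  have h1 : ((3 * e ^ 2 + a) * (ϖ * dl a b) ^ 2 : F) = ϖ * dl a b ^ 2 * (ϖ * (3 * e ^ 2 + a)) := by
    ring
  have h0 : 0 < Valued.v (ϖ * dl a b ^ 2) := zero_lt_iff.2 ((Valuation.ne_zero_iff _).2 (Sw_nz h))
  have h2 : Valued.v (ϖ * (3 * e ^ 2 + a)) < 1 := by
    rw [map_mul]
    exact (mul_le_of_le_one_right' (Sw_D1 h he)).trans_lt h.w1
  rw [h1, map_mul]
  calc Valued.v (ϖ * dl a b ^ 2) * Valued.v (ϖ * (3 * e ^ 2 + a)) <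
      Valued.v (ϖ * dl a b ^ 2) * 1 := (mul_lt_mul_iff_right₀ h0).2 h2
    _ = _ := mul_one _

private theorem Sw_rn [CompleteSpace F] (h : Near ϖ a b A B τ) {x : F} (hx : Valued.v x ≤ 1)
    (hf : Valued.v (x ^ 3 + a * x + b) < Valued.v (ϖ * dl a b ^ 3)) :
    ∃ e : F, e ^ 3 + a * e + b = 0 ∧ Valued.v e ≤ 1 ∧
      Valued.v (x - e) < Valued.v (ϖ * dl a b ^ 2) := by
  have h1 : Valued.v (ϖ * dl a b ^ 3) ≤ Valued.v (dl a b ^ 2) := by
    have k : (ϖ * dl a b ^ 3 : F) = dl a b ^ 2 * (ϖ * dl a b) := by ring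
    rw [k, map_mul]
    refine mul_le_of_le_one_right' ?_
    rw [map_mul]
    exact mul_le_one' h.w1.le (v_dl h.ia h.ib)
  obtain ⟨e, her, he, hxe⟩ := root_near h.ia h.ib hx h.ne (hf.trans_le h1)
  refine ⟨e, her, he, ?_⟩
  have h2 : Valued.v (x - e) * Valued.v (dl a b) < Valued.v (ϖ * dl a b ^ 2) * Valued.v (dl a b) := by
    refine hxe.trans_lt (hf.trans_eq ?_)
    rw [← map_mul]
    congr 1
    ring
  exact lt_of_mul_lt_mul_right' h2

theorem root_tau (h : Near ϖ a b A B τ) {e : F} (he : Valued.v e ≤ 1) (her : e ^ 3 + a * e + b = 0) :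
    e1 e τ ^ 3 + A * e1 e τ + B = 0 ∧ Valued.v (e1 e τ - e) < Valued.v (ϖ ^ 2 * dl a b ^ 3) := by
  constructor
  · have h0 := h.rt 0
    have h1 := h.rt 1
    have h2 := h.rt 2
    have c0 : cst B 0 = B := rfl
    have c1 : cst B 1 = 0 := rfl
    have c2 : cst B 2 = 0 := rfl
    rw [c0] at h0
    rw [c1] at h1
    rw [c2] at h2
    have k1 : e1 e (m3 a b τ (m3 a b τ τ)) + A * e1 e τ + B = 0 := by
      unfold e1
      linear_combination h0 + e * h1 + e ^ 2 * h2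
    rw [e1_m3 her, e1_m3 her] at k1
    linear_combination k1
  · have h0 := h.nr 0
    have h1 := h.nr 1
    have h2 := h.nr 2
    have c0 : (TT 0 : F) = 0 := rfl
    have c1 : (TT 1 : F) = 1 := rfl
    have c2 : (TT 2 : F) = 0 := rfl
    have k : e1 e τ - e = (τ 0 - TT 0) + (τ 1 - TT 1) * e + (τ 2 - TT 2) * e ^ 2 := by
      rw [c0, c1, c2]
      unfold e1
      ring
    rw [k]
    refine Valuation.map_add_lt _ (Valuation.map_add_lt _ h0 (Sw_mul_lt h1 he)) (Sw_mul_lt h2 ?_)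
    rw [map_pow]
    exact pow_le_one' he 2

theorem sw1 [CompleteSpace F] [CharZero F] (h : Near ϖ a b A B τ) {x y : F} (hy : y ≠ 0)
    (hxy : y ^ 2 = x ^ 3 + A * x + B) :
    ∃ (x0 : F) (r : Fin 3 → F), x0 ^ 3 + a * x0 + b ≠ 0 ∧
      m3 a b r r = m3 a b (xt τ x) (xT x0) := by
  rcases lt_or_ge 1 (Valued.v x) with hx | hx
  · obtain ⟨r, hr⟩ := near1 h (Or.inl hx)
    exact ⟨x, r, Sw_big h.ia h.ib hx, hr⟩
  rcases le_or_gt (Valued.v (ϖ * dl a b ^ 3)) (Valued.v (x ^ 3 + a * x + b)) with hf | hf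
  · obtain ⟨r, hr⟩ := near1 h (Or.inr ⟨hx, hf⟩)
    refine ⟨x, r, ?_, hr⟩
    intro h0
    rw [h0, map_zero, le_zero_iff, Valuation.zero_iff] at hf
    exact mul_ne_zero h.w0 (pow_ne_zero 3 h.ne) hf
  obtain ⟨e, her, he, hxe⟩ := Sw_rn h hx hf
  obtain ⟨ht, hte⟩ := root_tau h he her
  have hte' : Valued.v (e1 e τ - e) < Valued.v (ϖ * dl a b ^ 2) := hte.trans_le (Sw_16 h)
  obtain ⟨u, hu, hM⟩ := Sw_gen h he her hxe hte' (h.dA.trans_le (Sw_16 h))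
  have hD := Sw_D h he her
  set e' := e1 e τ with he'
  have hyy : y ^ 2 = (x - e') * ((3 * e ^ 2 + a) * u ^ 2) := by
    rw [← hM]
    linear_combination hxy + ht
  obtain ⟨x0, hx0⟩ : ∃ x0 : F, x0 = e + (3 * e ^ 2 + a) * (ϖ * dl a b) ^ 2 := ⟨_, rfl⟩
  have hx0e : x0 - e = (3 * e ^ 2 + a) * (ϖ * dl a b) ^ 2 := by rw [hx0]; ring
  have hx0v : Valued.v (x0 - e) < Valued.v (ϖ * dl a b ^ 2) := by
    rw [hx0e]
    exact Sw_16D h he
  have hxe' : Valued.v (x - e') < Valued.v (ϖ * dl a b ^ 2) := by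
    have k : x - e' = (x - e) - (e' - e) := by ring
    rw [k]
    exact Valuation.map_sub_lt _ hxe hte'
  have hr : (x - e') * (x0 - e) = (ϖ * dl a b * y / u) ^ 2 := by
    rw [hx0e, div_pow, eq_div_iff (pow_ne_zero 2 hu)]
    linear_combination (-(ϖ * dl a b) ^ 2) * hyy
  have hr0 : ϖ * dl a b * y / u ≠ 0 :=
    div_ne_zero (mul_ne_zero (mul_ne_zero h.w0 h.ne) hy) hu
  obtain ⟨ρ, hρ⟩ := near2 h he her hxe' hx0v hr hr0
  refine ⟨x0, ρ, ?_, hρ⟩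
  have hz : Valued.v (0 : F) < Valued.v (ϖ * dl a b ^ 2) := by
    rw [map_zero]
    exact zero_lt_iff.2 ((Valuation.ne_zero_iff _).2 (Sw_nz h))
  obtain ⟨u0, hu0, hM0⟩ := Sw_gen (e' := e) (A' := a) h he her hx0v (by rw [sub_self]; exact hz)
    (by rw [sub_self]; exact hz)
  have hfac : x0 ^ 3 + a * x0 + b = (x0 - e) * ((3 * e ^ 2 + a) * u0 ^ 2) := by
    rw [← hM0]
    linear_combination her
  rw [hfac, hx0e]
  exact mul_ne_zero (mul_ne_zero hD (pow_ne_zero 2 (mul_ne_zero h.w0 h.ne)))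
    (mul_ne_zero hD (pow_ne_zero 2 hu0))

theorem sw2 [CompleteSpace F] [CharZero F] (h : Near ϖ a b A B τ) {x0 y0 : F} (hy : y0 ≠ 0)
    (hxy : y0 ^ 2 = x0 ^ 3 + a * x0 + b) :
    ∃ (x : F) (r : Fin 3 → F), x ^ 3 + A * x + B ≠ 0 ∧
      m3 a b r r = m3 a b (xt τ x) (xT x0) := by
  rcases lt_or_ge 1 (Valued.v x0) with hx | hx
  · obtain ⟨r, hr⟩ := near1 h (Or.inl hx)
    exact ⟨x0, r, Sw_big (Sw_A h) (Sw_B h) hx, hr⟩
  rcases le_or_gt (Valued.v (ϖ * dl a b ^ 3)) (Valued.v (x0 ^ 3 + a * x0 + b)) with hf | hf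
  · obtain ⟨r, hr⟩ := near1 h (Or.inr ⟨hx, hf⟩)
    refine ⟨x0, r, ?_, hr⟩
    intro h0
    have k : x0 ^ 3 + a * x0 + b = -((A - a) * x0 + (B - b)) := by linear_combination h0
    have k1 : Valued.v (x0 ^ 3 + a * x0 + b) < Valued.v (ϖ ^ 2 * dl a b ^ 3) := by
      rw [k, Valuation.map_neg]
      exact Valuation.map_add_lt _ (Sw_mul_lt h.dA hx) h.dB
    have k2 : Valued.v (ϖ ^ 2 * dl a b ^ 3) ≤ Valued.v (ϖ * dl a b ^ 3) := by
      have k3 : (ϖ ^ 2 * dl a b ^ 3 : F) = ϖ * dl a b ^ 3 * ϖ := by ring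
      rw [k3, map_mul (Valued.v) (ϖ * dl a b ^ 3) ϖ]
      exact mul_le_of_le_one_right' h.w1.le
    exact absurd hf (not_le.2 (k1.trans_le k2))
  obtain ⟨e, her, he, hxe⟩ := Sw_rn h hx hf
  obtain ⟨ht, hte⟩ := root_tau h he her
  have hte' : Valued.v (e1 e τ - e) < Valued.v (ϖ * dl a b ^ 2) := hte.trans_le (Sw_16 h)
  have hz : Valued.v (0 : F) < Valued.v (ϖ * dl a b ^ 2) := by
    rw [map_zero]
    exact zero_lt_iff.2 ((Valuation.ne_zero_iff _).2 (Sw_nz h))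
  obtain ⟨u, hu, hM⟩ := Sw_gen (e' := e) (A' := a) h he her hxe (by rw [sub_self]; exact hz)
    (by rw [sub_self]; exact hz)
  have hD := Sw_D h he her
  set e' := e1 e τ with he'
  have hyy : y0 ^ 2 = (x0 - e) * ((3 * e ^ 2 + a) * u ^ 2) := by
    rw [← hM]
    linear_combination hxy + her
  obtain ⟨x, hxd⟩ : ∃ x : F, x = e' + (3 * e ^ 2 + a) * (ϖ * dl a b) ^ 2 := ⟨_, rfl⟩
  have hxe1 : x - e' = (3 * e ^ 2 + a) * (ϖ * dl a b) ^ 2 := by rw [hxd]; ring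
  have hxv : Valued.v (x - e') < Valued.v (ϖ * dl a b ^ 2) := by
    rw [hxe1]
    exact Sw_16D h he
  have hr : (x - e') * (x0 - e) = (ϖ * dl a b * y0 / u) ^ 2 := by
    rw [hxe1, div_pow, eq_div_iff (pow_ne_zero 2 hu)]
    linear_combination (-(ϖ * dl a b) ^ 2) * hyy
  have hr0 : ϖ * dl a b * y0 / u ≠ 0 :=
    div_ne_zero (mul_ne_zero (mul_ne_zero h.w0 h.ne) hy) hu
  obtain ⟨ρ, hρ⟩ := near2 h he her hxv hxe hr hr0
  refine ⟨x, ρ, ?_, hρ⟩
  have hxv' : Valued.v (x - e) < Valued.v (ϖ * dl a b ^ 2) := by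
    have k : x - e = (x - e') + (e' - e) := by ring
    rw [k]
    exact Valuation.map_add_lt _ hxv hte'
  obtain ⟨u0, hu0, hM0⟩ := Sw_gen h he her hxv' hte' (h.dA.trans_le (Sw_16 h))
  have hfac : x ^ 3 + A * x + B = (x - e') * ((3 * e ^ 2 + a) * u0 ^ 2) := by
    rw [← hM0]
    linear_combination ht
  rw [hfac, hxe1]
  exact mul_ne_zero (mul_ne_zero hD (pow_ne_zero 2 (mul_ne_zero h.w0 h.ne)))
    (mul_ne_zero hD (pow_ne_zero 2 hu0))

end H36LG
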